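import Pool.Agent.Lib.MP_069854_nt.UC

namespace RGX
open MP069854
open Filter Topology Complex Set MeasureTheory
open scoped ComplexConjugate ContDiff

variable {k m : ℕ}

theorem RT_int' (g : ℝ → ℂ) (k : ℕ) (T : ℝ) : ∫ β : ℝ, G g (β * I) * RT k β T =
    ((T * Real.log T ^ (k ^ 2) : ℝ) : ℂ)⁻¹ *
      ∫ β : ℝ, G g (β * I) * AC (Ft k T) (2 * β / Real.log T) := by
  rw [← integral_const_mul]
  refine integral_congr_ae (Eventually.of_forall fun β => ?_)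
  simp only [RT]; ring

/-- representation of `RT` by a positive density -/
theorem RT_meas (k : ℕ) {T : ℝ} (hT : 1 < T) : ∃ (ρ v : ℝ → ℝ), (∀ ξ, 0 ≤ ρ ξ) ∧ Integrable ρ ∧
    Continuous v ∧ Jn k T = (∫ ξ, ρ ξ) ∧
    (∀ β : ℝ, RT k β T = ∫ ξ, (ρ ξ : ℂ) * exp (-(I * β * v ξ))) ∧
    (∀ (g : ℝ → ℂ) (A B : ℝ), TF g A B →
      ∫ β : ℝ, G g (β * I) * RT k β T = 2 * Real.pi * ∫ ξ, (ρ ξ : ℂ) * g (v ξ)) := by
  have hL := Real.log_pos hT
  obtain ⟨M, hM⟩ := Ft_bounded k T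
  obtain ⟨ρ, hρ0, hρi, hρ⟩ := bochner (Ft_integrable k T) hM (Ft_contAt k T)
  set c : ℝ := (T * Real.log T ^ (k ^ 2))⁻¹ with hc
  have hc0 : 0 ≤ c := by positivity
  have hcc : ((T * Real.log T ^ (k ^ 2) : ℝ) : ℂ)⁻¹ = (c : ℂ) := by rw [hc, ofReal_inv]
  have e0 : (∫ t, ‖Ft k T t‖ ^ 2) = ∫ ξ, ρ ξ := by
    have h2 := hρ 0
    rw [AC_zero] at h2
    have h3 : ∫ ξ : ℝ, (ρ ξ : ℂ) * exp ((2 * Real.pi * 0 * ξ : ℝ) * I) = ((∫ ξ, ρ ξ : ℝ) : ℂ) := by
      rw [← integral_complex_ofReal]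
      refine integral_congr_ae (Eventually.of_forall fun ξ => ?_)
      simp
    rw [h3] at h2
    exact_mod_cast h2
  refine ⟨fun ξ => c * ρ ξ, fun ξ => -(4 * Real.pi * ξ / Real.log T), fun ξ => mul_nonneg hc0 (hρ0 ξ),
    hρi.const_mul c, by fun_prop, ?_, ?_, ?_⟩
  · rw [integral_const_mul, ← e0, Ft_sq k (by linarith)]
    rfl
  · intro β
    unfold RT
    rw [hcc, hρ, ← integral_const_mul]
    refine integral_congr_ae (Eventually.of_forall fun ξ => ?_)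
    simp only
    have : ((2 * Real.pi * (2 * β / Real.log T) * ξ : ℝ) : ℂ) * I =
      -(I * β * ((-(4 * Real.pi * ξ / Real.log T) : ℝ) : ℂ)) := by push_cast; ring
    rw [this]
    push_cast; ring
  · intro g A B hg
    rw [RT_int', hcc, (AC_test hg hL hρi hρ).2, ← mul_assoc, mul_comm (c : ℂ), mul_assoc,
      ← integral_const_mul]
    congr 1
    refine integral_congr_ae (Eventually.of_forall fun ξ => ?_)
    simp only
    push_cast; ring

/-- trigonometric polynomial -/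
noncomputable def PP (x : Fin m → ℝ) (c : Fin m → ℂ) (u : ℝ) : ℂ := ∑ j, c j * exp (-(I * x j * u))

theorem PP_cont (x : Fin m → ℝ) (c : Fin m → ℂ) : Continuous (PP x c) := by
  unfold PP; fun_prop

theorem PP_norm (x : Fin m → ℝ) (c : Fin m → ℂ) (u : ℝ) : ‖PP x c u‖ ≤ ∑ j, ‖c j‖ := by
  refine (norm_sum_le _ _).trans (Finset.sum_le_sum fun j _ => ?_)
  rw [norm_mul, show (-(I * x j * u) : ℂ) = ((-(x j * u) : ℝ) : ℂ) * I by push_cast; ring,
    norm_exp_ofReal_mul_I, mul_one]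

theorem sum_RT (x : Fin m → ℝ) (c : Fin m → ℂ) {ρ v : ℝ → ℝ} (hρi : Integrable ρ) (hv : Continuous v)
    {T : ℝ} (h : ∀ β : ℝ, RT k β T = ∫ ξ, (ρ ξ : ℂ) * exp (-(I * β * v ξ))) :
    ∑ j, c j * RT k (x j) T = ∫ ξ, (ρ ξ : ℂ) * PP x c (v ξ) := by
  have hi : ∀ j ∈ Finset.univ, Integrable fun ξ => (ρ ξ : ℂ) * (c j * exp (-(I * x j * v ξ))) := by
    intro j _
    refine hρi.ofReal.mul_bdd (c := ‖c j‖) ?_ (Eventually.of_forall fun ξ => ?_)
    · exact (by fun_prop : Continuous fun ξ => c j * exp (-(I * x j * v ξ))).aestronglyMeasurable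
    · rw [norm_mul, show (-(I * x j * v ξ) : ℂ) = ((-(x j * v ξ) : ℝ) : ℂ) * I by push_cast; ring,
        norm_exp_ofReal_mul_I, mul_one]
  unfold PP
  simp_rw [Finset.mul_sum]
  rw [integral_finsetSum _ hi]
  refine Finset.sum_congr rfl fun j _ => ?_
  rw [h, ← integral_const_mul]
  refine integral_congr_ae (Eventually.of_forall fun ξ => ?_)
  simp only; ring

theorem TF.bdd {φ : ℝ → ℝ} {A B : ℝ} (hg : TF (fun u => (φ u : ℂ)) A B) :
    Continuous φ ∧ ∃ C : ℝ, ∀ u, ‖φ u‖ ≤ C := by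
  obtain ⟨C, hC⟩ := hg.hcs.exists_bound_of_continuous hg.cont
  refine ⟨?_, C, fun u => ?_⟩
  · exact Complex.continuous_re.comp hg.cont
  · have := hC u
    rwa [Complex.norm_real] at this

/-- the mass off the cut-off -/
theorem off_mass {φ : ℝ → ℝ} {A B : ℝ} (hg : TF (fun u => (φ u : ℂ)) A B) {ρ v : ℝ → ℝ}
    (hρi : Integrable ρ) (hv : Continuous v) {T : ℝ} (h0 : Jn k T = ∫ ξ, ρ ξ)
    (h : ∀ (g : ℝ → ℂ) (A B : ℝ), TF g A B →
      ∫ β : ℝ, G g (β * I) * RT k β T = 2 * Real.pi * ∫ ξ, (ρ ξ : ℂ) * g (v ξ)) :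
    Integrable (fun ξ => ρ ξ * φ (v ξ)) ∧
    Jn k T - (2 * Real.pi)⁻¹ * (∫ β : ℝ, G (fun u => (φ u : ℂ)) (β * I) * RT k β T).re =
      ∫ ξ, ρ ξ * (1 - φ (v ξ)) := by
  obtain ⟨hc, C, hC⟩ := TF.bdd hg
  have hi : Integrable (fun ξ => ρ ξ * φ (v ξ)) :=
    hρi.mul_bdd (c := C) (hc.comp hv).aestronglyMeasurable (Eventually.of_forall fun ξ => hC _)
  refine ⟨hi, ?_⟩
  rw [h _ A B hg]
  have e1 : ((2 : ℂ) * Real.pi * ∫ ξ : ℝ, (ρ ξ : ℂ) * (φ (v ξ) : ℂ)) =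
      ((2 * Real.pi * ∫ ξ, ρ ξ * φ (v ξ) : ℝ) : ℂ) := by
    push_cast
    rw [← integral_complex_ofReal]
    congr 1
    refine integral_congr_ae (Eventually.of_forall fun ξ => ?_)
    simp
  rw [e1, ofReal_re, h0, ← mul_assoc, inv_mul_cancel₀ (by positivity), one_mul,
    ← integral_sub hρi hi]
  refine integral_congr_ae (Eventually.of_forall fun ξ => ?_)
  simp only; ring

/-- positivity inequality -/
theorem pos_ineq (x : Fin m → ℝ) (c : Fin m → ℂ) {φ : ℝ → ℝ} {A B : ℝ}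
    (hg : TF (fun u => (φ u : ℂ)) A B) {c0 S : ℝ}
    (hD : ∀ u, c0 * φ u - S * (1 - φ u) ≤ (PP x c u).re) {T : ℝ} (hT : 1 < T) :
    c0 * Jn k T - (S + c0) * (Jn k T - (2 * Real.pi)⁻¹ *
      (∫ β : ℝ, G (fun u => (φ u : ℂ)) (β * I) * RT k β T).re) ≤ (∑ j, c j * RT k (x j) T).re := by
  obtain ⟨ρ, v, hρ0, hρi, hv, h0, h1, h2⟩ := RT_meas k hT
  obtain ⟨hi, hoff⟩ := off_mass hg hρi hv h0 h2
  rw [hoff, sum_RT x c hρi hv h1, h0]
  have hi2 : Integrable fun ξ => ρ ξ * (1 - φ (v ξ)) := by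
    refine (hρi.sub hi).congr (Eventually.of_forall fun ξ => ?_)
    simp only [Pi.sub_apply]; ring
  have hP : Integrable fun ξ => (ρ ξ : ℂ) * PP x c (v ξ) :=
    hρi.ofReal.mul_bdd (c := ∑ j, ‖c j‖) ((PP_cont x c).comp hv).aestronglyMeasurable
      (Eventually.of_forall fun ξ => PP_norm x c _)
  have e1 : (∫ ξ, (ρ ξ : ℂ) * PP x c (v ξ)).re = ∫ ξ, ρ ξ * (PP x c (v ξ)).re := by
    rw [← RCLike.re_eq_complex_re, ← integral_re hP]
    refine integral_congr_ae (Eventually.of_forall fun ξ => ?_)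
    simp only [RCLike.re_eq_complex_re, re_ofReal_mul]
  have hPr : Integrable fun ξ => ρ ξ * (PP x c (v ξ)).re := by
    refine hP.re.congr (Eventually.of_forall fun ξ => ?_)
    simp only [RCLike.re_eq_complex_re, re_ofReal_mul]
  rw [e1, ← integral_const_mul, ← integral_const_mul, ← integral_sub (hρi.const_mul _) (hi2.const_mul _)]
  refine integral_mono ((hρi.const_mul _).sub (hi2.const_mul _)) hPr fun ξ => ?_
  have := mul_le_mul_of_nonneg_left (hD (v ξ)) (hρ0 ξ)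
  nlinarith [this]

/-- approximation inequality -/
theorem approx_ineq (x : Fin m → ℝ) (c : Fin m → ℂ) (y : ℝ) {φ : ℝ → ℝ} {A B : ℝ}
    (hg : TF (fun u => (φ u : ℂ)) A B) {ε S : ℝ}
    (hD : ∀ u : ℝ, ‖exp (-(I * y * u)) - PP x c u‖ ≤ ε + S * (1 - φ u)) {T : ℝ} (hT : 1 < T) :
    ‖RT k y T - ∑ j, c j * RT k (x j) T‖ ≤ ε * Jn k T + S * (Jn k T - (2 * Real.pi)⁻¹ *
      (∫ β : ℝ, G (fun u => (φ u : ℂ)) (β * I) * RT k β T).re) := by
  obtain ⟨ρ, v, hρ0, hρi, hv, h0, h1, h2⟩ := RT_meas k hT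
  obtain ⟨hi, hoff⟩ := off_mass hg hρi hv h0 h2
  have hi2 : Integrable fun ξ => ρ ξ * (1 - φ (v ξ)) := by
    refine (hρi.sub hi).congr (Eventually.of_forall fun ξ => ?_)
    simp only [Pi.sub_apply]; ring
  have hP : Integrable fun ξ => (ρ ξ : ℂ) * PP x c (v ξ) :=
    hρi.ofReal.mul_bdd (c := ∑ j, ‖c j‖) ((PP_cont x c).comp hv).aestronglyMeasurable
      (Eventually.of_forall fun ξ => PP_norm x c _)
  have hY : Integrable fun ξ => (ρ ξ : ℂ) * exp (-(I * y * v ξ)) := by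
    refine hρi.ofReal.mul_bdd (c := 1) ?_ (Eventually.of_forall fun ξ => ?_)
    · exact (by fun_prop : Continuous fun ξ => exp (-(I * y * v ξ))).aestronglyMeasurable
    · rw [show (-(I * y * v ξ) : ℂ) = ((-(y * v ξ) : ℝ) : ℂ) * I by push_cast; ring,
        norm_exp_ofReal_mul_I]
  rw [hoff, sum_RT x c hρi hv h1, h0, h1, ← integral_sub hY hP, ← integral_const_mul,
    ← integral_const_mul, ← integral_add (hρi.const_mul _) (hi2.const_mul _)]
  refine norm_integral_le_of_norm_le ((hρi.const_mul _).add (hi2.const_mul _))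
    (Eventually.of_forall fun ξ => ?_)
  rw [← mul_sub, norm_mul, Complex.norm_real, Real.norm_of_nonneg (hρ0 ξ)]
  have := mul_le_mul_of_nonneg_left (hD (v ξ)) (hρ0 ξ)
  nlinarith [this]

/-- approximation inequality with a compactly supported part -/
theorem approx_ineq2 (x : Fin m → ℝ) (c : Fin m → ℂ) (y : ℝ) {φ : ℝ → ℝ} {A B A' B' : ℝ}
    (hg : TF (fun u => (φ u : ℂ)) A B) {g : ℝ → ℂ} (hg2 : TF g A' B') {ε S : ℝ}
    (hD : ∀ u : ℝ, ‖exp (-(I * y * u)) - PP x c u - g u‖ ≤ ε + S * (1 - φ u)) {T : ℝ} (hT : 1 < T) :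
    ‖RT k y T - (∑ j, c j * RT k (x j) T) - (2 * Real.pi : ℂ)⁻¹ * ∫ β : ℝ, G g (β * I) * RT k β T‖ ≤
      ε * Jn k T + S * (Jn k T - (2 * Real.pi)⁻¹ *
      (∫ β : ℝ, G (fun u => (φ u : ℂ)) (β * I) * RT k β T).re) := by
  obtain ⟨ρ, v, hρ0, hρi, hv, h0, h1, h2⟩ := RT_meas k hT
  obtain ⟨hi, hoff⟩ := off_mass hg hρi hv h0 h2
  have hi2 : Integrable fun ξ => ρ ξ * (1 - φ (v ξ)) := by
    refine (hρi.sub hi).congr (Eventually.of_forall fun ξ => ?_)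
    simp only [Pi.sub_apply]; ring
  have hP : Integrable fun ξ => (ρ ξ : ℂ) * PP x c (v ξ) :=
    hρi.ofReal.mul_bdd (c := ∑ j, ‖c j‖) ((PP_cont x c).comp hv).aestronglyMeasurable
      (Eventually.of_forall fun ξ => PP_norm x c _)
  have hY : Integrable fun ξ => (ρ ξ : ℂ) * exp (-(I * y * v ξ)) := by
    refine hρi.ofReal.mul_bdd (c := 1) ?_ (Eventually.of_forall fun ξ => ?_)
    · exact (by fun_prop : Continuous fun ξ => exp (-(I * y * v ξ))).aestronglyMeasurable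
    · rw [show (-(I * y * v ξ) : ℂ) = ((-(y * v ξ) : ℝ) : ℂ) * I by push_cast; ring,
        norm_exp_ofReal_mul_I]
  have hG : Integrable fun ξ => (ρ ξ : ℂ) * g (v ξ) := by
    obtain ⟨C, hC⟩ := hg2.hcs.exists_bound_of_continuous hg2.cont
    exact hρi.ofReal.mul_bdd (c := C) (hg2.cont.comp hv).aestronglyMeasurable
      (Eventually.of_forall fun ξ => hC _)
  have h2π : (2 * Real.pi : ℂ) ≠ 0 := twopi_ne
  have hYP : Integrable fun ξ => (ρ ξ : ℂ) * exp (-(I * y * v ξ)) - (ρ ξ : ℂ) * PP x c (v ξ) := hY.sub hP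
  rw [hoff, sum_RT x c hρi hv h1, h0, h1, h2 g A' B' hg2, inv_mul_cancel_left₀ h2π,
    ← integral_sub hY hP, ← integral_sub hYP hG, ← integral_const_mul,
    ← integral_const_mul, ← integral_add (hρi.const_mul _) (hi2.const_mul _)]
  refine norm_integral_le_of_norm_le ((hρi.const_mul _).add (hi2.const_mul _))
    (Eventually.of_forall fun ξ => ?_)
  rw [← mul_sub, ← mul_sub, norm_mul, Complex.norm_real, Real.norm_of_nonneg (hρ0 ξ)]
  have := mul_le_mul_of_nonneg_left (hD (v ξ)) (hρ0 ξ)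
  nlinarith [this]

end RGX
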