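import Pool.Agent.Lib.MP_069854_nt.RG.RGA

namespace RGX
open MP069854
open Filter Topology Complex Set MeasureTheory
open scoped ComplexConjugate ContDiff

variable {k m : ℕ}

theorem I2_growth (k : ℕ) : ∃ C : ℝ, 1 ≤ C ∧ ∀ x : ℝ, 0 ≤ x → I2 k x ≤ C * (1 + x) ^ (2 * k + 1) := by
  obtain ⟨C, hC, h⟩ := fz_growth k
  refine ⟨C ^ 2, by nlinarith, fun x hx => ?_⟩
  unfold I2
  have h1 : ∫ t in (0:ℝ)..x, ‖fz k t‖ ^ 2 ≤ ∫ t in (0:ℝ)..x, (C * (1 + x) ^ k) ^ 2 := by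
    refine intervalIntegral.integral_mono_on hx ((fzsq_cont k).intervalIntegrable _ _)
      (continuous_const.intervalIntegrable _ _) fun t ht => ?_
    have h2 := h t
    rw [abs_of_nonneg ht.1] at h2
    have h3 : C * (1 + t) ^ k ≤ C * (1 + x) ^ k := by
      have := ht.1
      have := ht.2
      gcongr
    exact pow_le_pow_left₀ (norm_nonneg _) (h2.trans h3) 2
  refine h1.trans ?_
  rw [intervalIntegral.integral_const, smul_eq_mul, sub_zero]
  calc x * (C * (1 + x) ^ k) ^ 2 = C ^ 2 * (1 + x) ^ (2 * k) * x := by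
        rw [mul_pow, ← pow_mul, mul_comm k 2]; ring
    _ ≤ C ^ 2 * (1 + x) ^ (2 * k) * (1 + x) :=
        mul_le_mul_of_nonneg_left (by linarith) (by positivity)
    _ = _ := by rw [pow_succ (1 + x) (2 * k)]; ring

/-- the scale -/
noncomputable def sc (k : ℕ) (T : ℝ) : ℝ := T ^ ((1:ℝ) / (2 * k + 4 : ℕ))

theorem sc_pow (k : ℕ) {T : ℝ} (hT : 0 ≤ T) : sc k T ^ (2 * k + 4) = T := by
  unfold sc
  rw [← Real.rpow_natCast, ← Real.rpow_mul hT, one_div, inv_mul_cancel₀ (by positivity), Real.rpow_one]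

theorem sc_nonneg (k : ℕ) {T : ℝ} (hT : 0 ≤ T) : 0 ≤ sc k T := Real.rpow_nonneg hT _

theorem sc_mono (k : ℕ) {T T' : ℝ} (hT : 0 ≤ T) (h : T ≤ T') : sc k T ≤ sc k T' :=
  Real.rpow_le_rpow hT h (by positivity)

theorem sc_atTop (k : ℕ) : Tendsto (sc k) atTop atTop := tendsto_rpow_atTop (by positivity)

theorem sc_one_le (k : ℕ) {T : ℝ} (hT : 1 ≤ T) : 1 ≤ sc k T := Real.one_le_rpow hT (by positivity)

theorem sc_four (k : ℕ) {T : ℝ} (hT : 1 ≤ T) : sc k T ^ 4 ≤ T := by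
  calc sc k T ^ 4 ≤ sc k T ^ (2 * k + 4) := pow_le_pow_right₀ (sc_one_le k hT) (by omega)
    _ = T := sc_pow k (by linarith)

noncomputable def den (k : ℕ) (T : ℝ) : ℝ := T * Real.log T ^ (k ^ 2)

/-- the edge mass -/
noncomputable def Eg (k : ℕ) (T : ℝ) : ℝ := (den k T)⁻¹ * (I2 k (T + sc k T) - I2 k (T - 2 * sc k T))

theorem den_ge (k : ℕ) {T : ℝ} (hT : Real.exp 1 ≤ T) : T ≤ den k T := by
  have hexp1 : (2:ℝ) ≤ Real.exp 1 := by have := Real.add_one_le_exp (1:ℝ); linarith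
  have hT0 : 0 < T := by linarith
  have hL1 : 1 ≤ Real.log T := by rw [Real.le_log_iff_exp_le hT0]; exact hT
  exact le_mul_of_one_le_right hT0.le (one_le_pow₀ hL1)

theorem Eg_nonneg (k : ℕ) {T : ℝ} (hT : Real.exp 1 ≤ T) : 0 ≤ Eg k T := by
  have h1 := den_ge k hT
  have h2 : 0 < T := (Real.exp_pos 1).trans_le hT
  have h3 := sc_nonneg k h2.le
  have h4 := I2_mono k (show T - 2 * sc k T ≤ T + sc k T by linarith)
  unfold Eg
  have h5 : 0 < den k T := by linarith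
  have h6 : 0 ≤ I2 k (T + sc k T) - I2 k (T - 2 * sc k T) := by linarith
  positivity

/-- pointwise comparison of `Qk` with the positive definite function `RT` -/
theorem QR_bound (k : ℕ) : ∃ (M : ℕ) (C : ℝ), 0 ≤ C ∧ ∀ T : ℝ, Real.exp 1 ≤ T → ∀ β : ℝ,
    ‖Qk k β T - RT k β T‖ ≤ (Eg k T + C * (sc k T)⁻¹) * (1 + |β|) ^ M := by
  obtain ⟨C, hC, hI⟩ := I2_growth k
  set q : ℕ := 2 * k + 4 with hq
  refine ⟨2 * k + 2 + 2 * k * q, 2 * C * 3 ^ (2 * k + 1) + 2 * C * 2 ^ (2 * k + 1), by positivity,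
    fun T hT β => ?_⟩
  have hexp1 : (2:ℝ) ≤ Real.exp 1 := by have := Real.add_one_le_exp (1:ℝ); linarith
  have hT0 : 0 < T := by linarith
  have hT1 : 1 ≤ T := by linarith
  have hd := den_ge k hT
  have hd0 : 0 < den k T := by linarith
  set s := sc k T with hs
  have hs1 : 1 ≤ s := sc_one_le k hT1
  have hsq : s ^ q = T := sc_pow k hT0.le
  have hb1 : (1:ℝ) ≤ (1 + |β|) ^ (2 * k + 2 + 2 * k * q) := one_le_pow₀ (by linarith [abs_nonneg β])
  have hE0 := Eg_nonneg k hT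
  have hdi : (den k T)⁻¹ ≤ (s ^ q)⁻¹ := by
    rw [hsq]
    exact inv_anti₀ hT0 hd
  have hdi0 : 0 ≤ (den k T)⁻¹ := by positivity
  rcases le_total |β| s with h | h
  · have h1 := edge k β hT
    have h2 : I2 k (2 * |β|) - I2 k (-|β|) ≤ 2 * I2 k (2 * s) := by
      rw [I2_neg]
      have e1 := I2_mono k (show 2 * |β| ≤ 2 * s by linarith)
      have e2 := I2_mono k (show |β| ≤ 2 * s by linarith)
      linarith
    have h3 : I2 k (T + |β|) - I2 k (T - 2 * |β|) ≤ I2 k (T + s) - I2 k (T - 2 * s) := by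
      have e1 := I2_mono k (show T + |β| ≤ T + s by linarith)
      have e2 := I2_mono k (show T - 2 * s ≤ T - 2 * |β| by linarith)
      linarith
    have h4 : I2 k (2 * s) ≤ C * 3 ^ (2 * k + 1) * s ^ (2 * k + 1) := by
      refine (hI _ (by linarith)).trans ?_
      rw [mul_assoc, ← mul_pow]
      gcongr
      linarith
    have h5 : (den k T)⁻¹ * (2 * I2 k (2 * s)) ≤ 2 * C * 3 ^ (2 * k + 1) * s⁻¹ := by
      have e0 : 0 ≤ I2 k (2 * s) := I2_nonneg k (by linarith)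
      calc (den k T)⁻¹ * (2 * I2 k (2 * s)) ≤ (s ^ q)⁻¹ * (2 * (C * 3 ^ (2 * k + 1) * s ^ (2 * k + 1))) := by
            gcongr
        _ = 2 * C * 3 ^ (2 * k + 1) * (s ^ 3)⁻¹ := by
            rw [hq, show 2 * k + 4 = (2 * k + 1) + 3 by ring, pow_add s (2 * k + 1) 3, mul_inv]
            have : s ^ (2 * k + 1) ≠ 0 := by positivity
            field_simp
        _ ≤ 2 * C * 3 ^ (2 * k + 1) * s⁻¹ := by
            have : (s ^ 3)⁻¹ ≤ s⁻¹ := inv_anti₀ (by linarith) (by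
              calc s = s ^ 1 := (pow_one s).symm
                _ ≤ s ^ 3 := pow_le_pow_right₀ hs1 (by norm_num))
            gcongr
    have h6 : ‖Qk k β T - RT k β T‖ ≤ Eg k T + 2 * C * 3 ^ (2 * k + 1) * s⁻¹ := by
      refine h1.trans ?_
      show (den k T)⁻¹ * _ ≤ _
      calc (den k T)⁻¹ * ((I2 k (2 * |β|) - I2 k (-|β|)) + (I2 k (T + |β|) - I2 k (T - 2 * |β|))) ≤
          (den k T)⁻¹ * (2 * I2 k (2 * s) + (I2 k (T + s) - I2 k (T - 2 * s))) := by gcongr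
        _ = (den k T)⁻¹ * (2 * I2 k (2 * s)) + Eg k T := by unfold Eg; ring
        _ ≤ _ := by linarith
    have h7 : 0 ≤ 2 * C * 2 ^ (2 * k + 1) * s⁻¹ := by positivity
    have h8 : Eg k T + 2 * C * 3 ^ (2 * k + 1) * s⁻¹ ≤
        Eg k T + (2 * C * 3 ^ (2 * k + 1) + 2 * C * 2 ^ (2 * k + 1)) * s⁻¹ := by nlinarith
    refine (h6.trans h8).trans (le_mul_of_one_le_right ?_ hb1)
    positivity
  · have h1 : ‖Qk k β T‖ ≤ (den k T)⁻¹ * I2 k (T + |β|) := Qk_norm k β hT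
    have h2 : ‖RT k β T‖ ≤ (den k T)⁻¹ * I2 k (T + |β|) := by
      refine (RT_norm k β hT).trans ?_
      show (den k T)⁻¹ * _ ≤ _
      have := I2_mono k (show T ≤ T + |β| by linarith [abs_nonneg β])
      gcongr
    have h3 : I2 k (T + |β|) ≤ C * (2 * T * (1 + |β|)) ^ (2 * k + 1) := by
      refine (hI _ (by positivity)).trans ?_
      gcongr
      nlinarith [abs_nonneg β]
    have hb : 1 ≤ (1 + |β|) / s := by
      rw [le_div_iff₀ (by linarith)]; linarith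
    have h4 : (den k T)⁻¹ * I2 k (T + |β|) ≤ C * 2 ^ (2 * k + 1) * (s⁻¹ * (1 + |β|) ^ (2 * k + 2 + 2 * k * q)) := by
      calc (den k T)⁻¹ * I2 k (T + |β|) ≤ (s ^ q)⁻¹ * (C * (2 * T * (1 + |β|)) ^ (2 * k + 1)) := by
            gcongr
            exact I2_nonneg k (by positivity)
        _ = C * 2 ^ (2 * k + 1) * (s ^ (q * (2 * k)) * (1 + |β|) ^ (2 * k + 1)) := by
            rw [← hsq, mul_pow, mul_pow, ← pow_mul s q (2 * k + 1),
              show q * (2 * k + 1) = q + q * (2 * k) by ring, pow_add s q]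
            have : s ^ q ≠ 0 := by positivity
            field_simp
        _ ≤ C * 2 ^ (2 * k + 1) * (s ^ (q * (2 * k)) * (1 + |β|) ^ (2 * k + 1) *
              ((1 + |β|) / s) ^ (q * (2 * k) + 1)) := by
            refine mul_le_mul_of_nonneg_left ?_ (by positivity)
            exact le_mul_of_one_le_right (by positivity) (one_le_pow₀ hb)
        _ = _ := by
            rw [div_pow, show 2 * k + 2 + 2 * k * q = (2 * k + 1) + (q * (2 * k) + 1) by ring,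
              pow_add (1 + |β|) (2 * k + 1), pow_succ s (q * (2 * k))]
            have : s ^ (q * (2 * k)) ≠ 0 := by positivity
            have : s ≠ 0 := by positivity
            field_simp
    have h5 : ‖Qk k β T - RT k β T‖ ≤ 2 * (C * 2 ^ (2 * k + 1) * (s⁻¹ * (1 + |β|) ^ (2 * k + 2 + 2 * k * q))) := by
      refine (norm_sub_le _ _).trans ?_
      linarith
    refine h5.trans ?_
    have h6 : 0 ≤ (1 + |β|) ^ (2 * k + 2 + 2 * k * q) := by positivity
    have h7 : 0 ≤ 2 * C * 3 ^ (2 * k + 1) * s⁻¹ := by positivity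
    have h8 : 2 * C * 2 ^ (2 * k + 1) * s⁻¹ ≤
      Eg k T + (2 * C * 3 ^ (2 * k + 1) + 2 * C * 2 ^ (2 * k + 1)) * s⁻¹ := by nlinarith
    calc 2 * (C * 2 ^ (2 * k + 1) * (s⁻¹ * (1 + |β|) ^ (2 * k + 2 + 2 * k * q))) =
        (2 * C * 2 ^ (2 * k + 1) * s⁻¹) * (1 + |β|) ^ (2 * k + 2 + 2 * k * q) := by ring
      _ ≤ _ := by gcongr

/-- integrated comparison -/
theorem QR_int {g : ℝ → ℂ} {A B : ℝ} (hg : TF g A B) (k : ℕ) : ∃ D C : ℝ, 0 ≤ D ∧ 0 ≤ C ∧
    ∀ T : ℝ, Real.exp 1 ≤ T →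
      ‖(∫ β : ℝ, G g (β * I) * Qk k β T) - ∫ β : ℝ, G g (β * I) * RT k β T‖ ≤
        D * (Eg k T + C * (sc k T)⁻¹) := by
  obtain ⟨M, C, hC, h⟩ := QR_bound k
  refine ⟨∫ β : ℝ, ‖G g (β * I)‖ * (1 + |β|) ^ M, C, integral_nonneg fun β => by positivity, hC,
    fun T hT => ?_⟩
  have hexp1 : (2:ℝ) ≤ Real.exp 1 := by have := Real.add_one_le_exp (1:ℝ); linarith
  have hT1 : 1 < T := by linarith
  rw [← integral_sub (Qk_integrable (k := k) hg hT1) (RT_integrable (k := k) hg hT1), ← integral_mul_const]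
  refine norm_integral_le_of_norm_le ((G_poly hg M).mul_const _) (Eventually.of_forall fun β => ?_)
  rw [← mul_sub, norm_mul]
  calc ‖G g (β * I)‖ * ‖Qk k β T - RT k β T‖ ≤ ‖G g (β * I)‖ *
        ((Eg k T + C * (sc k T)⁻¹) * (1 + |β|) ^ M) := by gcongr; exact h T hT β
    _ = _ := by ring

end RGX
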