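import Pool.Agent.Lib.MP_069854_nt.RG.RGB

namespace RGX
open MP069854
open Filter Topology Complex Set MeasureTheory
open scoped ComplexConjugate ContDiff

variable {k m : ℕ}

theorem den_pos (k : ℕ) {T : ℝ} (hT : 1 < T) : 0 < den k T := by
  have := Real.log_pos hT
  unfold den; positivity

theorem Jn_nn (k : ℕ) {T : ℝ} (hT : 1 < T) : 0 ≤ Jn k T := by
  have hL := Real.log_pos hT
  have := I2_nonneg k (show 0 ≤ T by linarith)
  unfold Jn; positivity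

theorem I2_eq (k : ℕ) {T : ℝ} (hT : 1 < T) : I2 k T = den k T * Jn k T := by
  have := den_pos k hT
  unfold Jn
  show _ = den k T * ((den k T)⁻¹ * _)
  field_simp

theorem den_ratio (k : ℕ) {T T' : ℝ} (h4 : 4 ≤ T) (h1 : T ≤ T') (h2 : T' ≤ 2 * T) :
    den k T' ≤ 2 ^ (k ^ 2 + 1) * den k T := by
  have hL : 0 < Real.log T := Real.log_pos (by linarith)
  have h3 : Real.log T' ≤ 2 * Real.log T := by
    rw [two_mul, ← Real.log_mul (by linarith) (by linarith)]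
    exact Real.log_le_log (by linarith) (by nlinarith)
  have hL' : 0 ≤ Real.log T' := Real.log_nonneg (by linarith)
  unfold den
  calc T' * Real.log T' ^ (k ^ 2) ≤ (2 * T) * (2 * Real.log T) ^ (k ^ 2) := by gcongr
    _ = _ := by rw [mul_pow, pow_succ]; ring

/-- comparison at nearby points -/
theorem den_I2 (k : ℕ) {T T' : ℝ} (h4 : 4 ≤ T) (h1 : T ≤ T') (h2 : T' ≤ 2 * T) :
    (den k T)⁻¹ * I2 k T' ≤ 2 ^ (k ^ 2 + 1) * Jn k T' := by
  have hd := den_pos k (T := T) (by linarith)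
  have hJ := Jn_nn k (T := T') (by linarith)
  rw [I2_eq k (by linarith : 1 < T'), ← mul_assoc]
  refine mul_le_mul_of_nonneg_right ?_ hJ
  rw [inv_mul_le_iff₀ hd, mul_comm]
  exact den_ratio k h4 h1 h2

theorem Jn_comp (k : ℕ) {T T' : ℝ} (h4 : 4 ≤ T) (h1 : T ≤ T') (h2 : T' ≤ 2 * T) :
    Jn k T ≤ 2 ^ (k ^ 2 + 1) * Jn k T' := by
  refine le_trans ?_ (den_I2 k h4 h1 h2)
  unfold Jn
  show (den k T)⁻¹ * _ ≤ _
  have hd := den_pos k (T := T) (by linarith)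
  exact mul_le_mul_of_nonneg_left (I2_mono k h1) (by positivity)

/-- heights with small edge mass -/
theorem good_point (k : ℕ) {δ : ℝ} (hδ0 : 0 < δ) (hδ1 : δ ≤ 1 / 2) : ∃ C : ℝ, 0 ≤ C ∧
    ∀ᶠ T : ℝ in atTop, ∃ T' : ℝ, (1 - δ) * T ≤ T' ∧ T' ≤ T ∧
      Eg k T' ≤ C * (Jn k T * (Real.sqrt T)⁻¹) := by
  refine ⟨2 ^ (k ^ 2 + 1) * (6 / δ), by positivity, ?_⟩
  have hsq : Tendsto (fun T : ℝ => Real.sqrt T) atTop atTop := Real.tendsto_sqrt_atTop
  filter_upwards [eventually_ge_atTop (8 : ℝ), hsq.eventually (eventually_ge_atTop (6 / δ))] with T hT8 hTδ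
  have hT0 : 0 < T := by linarith
  set s := sc k T with hs
  have hs1 : 1 ≤ s := sc_one_le k (by linarith)
  have hs4 : s ^ 4 ≤ T := sc_four k (by linarith)
  set r := Real.sqrt T with hr
  have hr0 : 0 < r := Real.sqrt_pos.2 hT0
  have hrr : r * r = T := Real.mul_self_sqrt hT0.le
  have hs2 : s ^ 2 ≤ r := by
    refine Real.le_sqrt_of_sq_le ?_
    rw [← pow_mul]; exact hs4
  have hsr : s ≤ r := by nlinarith
  set x : ℝ := δ * T / (3 * s) with hx
  have hxr : δ / 3 * r ≤ x := by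
    rw [hx, le_div_iff₀ (by positivity), ← hrr]
    have : δ * r * s ≤ δ * r * r := by gcongr
    nlinarith
  have hδr : 6 ≤ δ * r := by
    have := mul_le_mul_of_nonneg_left hTδ hδ0.le
    rwa [mul_div_cancel₀ _ hδ0.ne'] at this
  have hx2 : 2 ≤ x := by nlinarith
  set M : ℕ := ⌊x⌋₊ with hM
  have hMx : (M : ℝ) ≤ x := Nat.floor_le (by linarith)
  have hMx' : x < M + 1 := Nat.lt_floor_add_one x
  have hMr : δ / 6 * r ≤ M := by nlinarith
  have hM0 : (0:ℝ) < M := by nlinarith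
  have hM1 : 1 ≤ M := by exact_mod_cast Nat.pos_of_ne_zero (by rintro h; rw [h] at hM0; simp at hM0)
  have h3 : 3 * s * M ≤ δ * T := by
    have := mul_le_mul_of_nonneg_left hMx (show 0 ≤ 3 * s by positivity)
    rwa [hx, mul_div_cancel₀ _ (by positivity)] at this
  obtain ⟨T', a1, a2, a3⟩ := pigeon k (show 0 < s by linarith) hM1
    (h3.trans (show δ * T ≤ T by nlinarith))
  have b1 : (1 - δ) * T ≤ T' := by linarith
  have b2 : T ≤ 2 * T' := by nlinarith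
  refine ⟨T', b1, a2, ?_⟩
  have hT4 : 4 ≤ T' := by linarith
  have hsc : sc k T' ≤ s := sc_mono k (by linarith) a2
  have c1 := I2_mono k (show T' + sc k T' ≤ T' + s by linarith)
  have c2 := I2_mono k (show T' - 2 * s ≤ T' - 2 * sc k T' by linarith)
  have hd := den_pos k (T := T') (by linarith)
  have hJ := Jn_nn k (T := T) (by linarith)
  unfold Eg
  calc (den k T')⁻¹ * (I2 k (T' + sc k T') - I2 k (T' - 2 * sc k T')) ≤
        (den k T')⁻¹ * (I2 k T / M) := by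
        gcongr; linarith
    _ = (den k T')⁻¹ * I2 k T * (M : ℝ)⁻¹ := by ring
    _ ≤ (2 ^ (k ^ 2 + 1) * Jn k T) * (δ / 6 * r)⁻¹ :=
        mul_le_mul (den_I2 k hT4 a2 b2) (inv_anti₀ (by positivity) hMr) (by positivity) (by positivity)
    _ = _ := by
        rw [mul_inv, inv_div]; ring

/-- a priori bound -/
theorem apriori (k : ℕ) : ∃ B : ℝ, ∀ᶠ T : ℝ in atTop, Jn k T ≤ B * Real.sqrt T ^ (2 * (2 * k + 1)) := by
  obtain ⟨C, hC, hI⟩ := I2_growth k
  refine ⟨C * 2 ^ (2 * k + 1), ?_⟩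
  filter_upwards [eventually_ge_atTop (Real.exp 1)] with T hT
  have hexp1 : (2:ℝ) ≤ Real.exp 1 := by have := Real.add_one_le_exp (1:ℝ); linarith
  have hT0 : 0 < T := by linarith
  have hd := den_ge k hT
  have h1 : Jn k T ≤ I2 k T := by
    unfold Jn
    show (den k T)⁻¹ * _ ≤ _
    have h2 : (den k T)⁻¹ ≤ 1 := inv_le_one_of_one_le₀ (by linarith)
    have h3 := I2_nonneg k hT0.le
    nlinarith
  refine (h1.trans (hI T hT0.le)).trans ?_
  rw [pow_mul, Real.sq_sqrt hT0.le, mul_assoc, ← mul_pow]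
  gcongr
  linarith

theorem bootstrap {X : ℝ → ℝ} {C : ℝ} (hC : 0 ≤ C)
    (h : ∀ᶠ T : ℝ in atTop, X T ≤ C * (1 + X (2 * T) * (Real.sqrt T)⁻¹)) (A : ℕ)
    (ha : ∃ B : ℝ, ∀ᶠ T : ℝ in atTop, X T ≤ B * Real.sqrt T ^ A) :
    ∃ B : ℝ, ∀ᶠ T : ℝ in atTop, X T ≤ B := by
  induction A with
  | zero =>
    obtain ⟨B, hB⟩ := ha
    exact ⟨B, by simpa using hB⟩
  | succ A ih =>
    apply ih
    obtain ⟨B, hB⟩ := ha
    refine ⟨C * (1 + |B| * Real.sqrt 2 ^ (A + 1)), ?_⟩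
    have h2 : Tendsto (fun T : ℝ => 2 * T) atTop atTop := tendsto_id.const_mul_atTop (by norm_num)
    filter_upwards [h, h2.eventually hB, eventually_ge_atTop (1:ℝ)] with T h1 h3 hT
    have hr1 : 1 ≤ Real.sqrt T := by rw [Real.one_le_sqrt]; exact hT
    have hr0 : 0 < Real.sqrt T := by linarith
    have h4 : X (2 * T) ≤ |B| * (Real.sqrt 2 ^ (A + 1) * Real.sqrt T ^ (A + 1)) := by
      refine h3.trans ?_
      rw [Real.sqrt_mul (by norm_num), mul_pow]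
      have := le_abs_self B
      gcongr
    have h5 : 1 ≤ Real.sqrt T ^ A := one_le_pow₀ hr1
    calc X T ≤ C * (1 + X (2 * T) * (Real.sqrt T)⁻¹) := h1
      _ ≤ C * (1 + (|B| * (Real.sqrt 2 ^ (A + 1) * Real.sqrt T ^ (A + 1))) * (Real.sqrt T)⁻¹) := by
          gcongr
      _ = C * (1 + |B| * Real.sqrt 2 ^ (A + 1) * Real.sqrt T ^ A) := by
          rw [pow_succ (Real.sqrt T) A]; field_simp
      _ ≤ C * (Real.sqrt T ^ A + |B| * Real.sqrt 2 ^ (A + 1) * Real.sqrt T ^ A) := by gcongr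
      _ = _ := by ring

/-- boundedness from the edge inequality -/
theorem bdd_of_edge (k : ℕ) {C : ℝ} (hC : 0 ≤ C)
    (h : ∀ᶠ T : ℝ in atTop, Jn k T ≤ C * (1 + Eg k T)) : ∃ B : ℝ, ∀ᶠ T : ℝ in atTop, Jn k T ≤ B := by
  obtain ⟨D, hD, hg⟩ := good_point k (δ := 1 / 2) (by norm_num) le_rfl
  refine bootstrap (X := Jn k) (C := 2 ^ (k ^ 2 + 1) * (C * (1 + D))) (by positivity) ?_ _ (apriori k)
  have h2 : Tendsto (fun T : ℝ => 2 * T) atTop atTop := tendsto_id.const_mul_atTop (by norm_num)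
  obtain ⟨T0, hT0⟩ := eventually_atTop.1 h
  filter_upwards [h2.eventually hg, eventually_ge_atTop (4:ℝ), eventually_ge_atTop T0] with T hT h4 hTT0
  obtain ⟨T', a1, a2, a3⟩ := hT
  have a1' : T ≤ T' := by linarith
  have e1 := Jn_comp k h4 a1' a2
  have e2 := hT0 T' (by linarith)
  have hJ2 := Jn_nn k (T := 2 * T) (by linarith)
  have hr : (Real.sqrt (2 * T))⁻¹ ≤ (Real.sqrt T)⁻¹ :=
    inv_anti₀ (Real.sqrt_pos.2 (by linarith)) (Real.sqrt_le_sqrt (by linarith))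
  have e3 : Eg k T' ≤ D * (Jn k (2 * T) * (Real.sqrt T)⁻¹) := by
    refine a3.trans ?_
    gcongr
  have e4 : 0 ≤ Jn k (2 * T) * (Real.sqrt T)⁻¹ := by positivity
  calc Jn k T ≤ 2 ^ (k ^ 2 + 1) * Jn k T' := e1
    _ ≤ 2 ^ (k ^ 2 + 1) * (C * (1 + Eg k T')) := by gcongr
    _ ≤ 2 ^ (k ^ 2 + 1) * (C * (1 + D * (Jn k (2 * T) * (Real.sqrt T)⁻¹))) := by gcongr
    _ ≤ 2 ^ (k ^ 2 + 1) * (C * ((1 + D) * (1 + Jn k (2 * T) * (Real.sqrt T)⁻¹))) := by
        gcongr; nlinarith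
    _ = _ := by ring

end RGX
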