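import Pool.Agent.Lib.MP_069854_nt.RG.RGC

namespace RGX
open MP069854
open Filter Topology Complex Set MeasureTheory
open scoped ComplexConjugate ContDiff

variable {k m : ℕ}

/-- the averaged limit off the middle range -/
theorem main0 (hk : 1 ≤ k) {g : ℝ → ℂ} (hg : ContDiff ℝ ∞ g)
    (hc : HasCompactSupport g) (hs : ∀ u ∈ tsupport g, u < 2 ∨ 2 * (k:ℝ) - 2 < u) :
    ∃ ℓ : ℂ, Tendsto (fun T : ℝ => ∫ α : ℝ, G g (α * I) * Qk k α T) atTop (𝓝 ℓ) := by
  obtain ⟨g₁, g₂, A, B, A', B', t1, hB, t2, hA, hsplit⟩ := exists_split hk hg hc hs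
  have hG := G_add t1 t2 hsplit
  have l1 := (low_side hk t1 hB).add (high_side hk t2 hA)
  refine ⟨_, l1.congr' ?_⟩
  filter_upwards [eventually_gt_atTop (1:ℝ)] with T hT
  rw [← integral_add (Qk_integrable (k := k) t1 hT) (Qk_integrable (k := k) t2 hT)]
  refine integral_congr_ae (Eventually.of_forall fun α => ?_)
  simp only [hG]; ring

theorem rho_range (k : ℕ) (ε u : ℝ) : 0 ≤ rhoM k ε u ∧ rhoM k ε u ≤ 1 := by
  unfold rhoM
  have h1 := Real.smoothTransition.nonneg (4 / ε * (u - (2 - 3 * ε / 4)))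
  have h2 := Real.smoothTransition.nonneg (4 / ε * ((2 * (k:ℝ) - 2 + 3 * ε / 4) - u))
  have h3 := Real.smoothTransition.le_one (4 / ε * (u - (2 - 3 * ε / 4)))
  have h4 := Real.smoothTransition.le_one (4 / ε * ((2 * (k:ℝ) - 2 + 3 * ε / 4) - u))
  exact ⟨mul_nonneg h1 h2, mul_le_one₀ h3 h2 h4⟩

theorem rho_TF (hk : 1 ≤ k) {ε : ℝ} (hε : 0 < ε) (hε1 : ε ≤ 1) :
    TF (fun u => ((rhoM k ε u : ℝ) : ℂ)) (-1) (2 * k + 1) := by
  have hk' : (1:ℝ) ≤ k := by exact_mod_cast hk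
  refine ⟨rhoM_smooth k ε, closure_minimal ?_ isClosed_Icc⟩
  intro u hu
  have h := rhoM_ne hε (show rhoM k ε u ≠ 0 by
    intro h0; apply hu; show ((rhoM k ε u : ℝ) : ℂ) = 0; rw [h0]; simp)
  exact ⟨by linarith [h.1], by linarith [h.2]⟩

/-- real plateau function -/
noncomputable def pl (k : ℕ) (u : ℝ) : ℝ := (g00 k u).re

theorem pl_eq (k : ℕ) (u : ℝ) : ((pl k u : ℝ) : ℂ) = gal k 0 u ∧ 0 ≤ pl k u ∧ pl k u ≤ 1 := by
  have hk0 : (0:ℝ) ≤ k := Nat.cast_nonneg k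
  have h1 : g00 k u = ((Real.smoothTransition (2 * (u - (-1))) -
      Real.smoothTransition (2 * (u - (2 * k + 1/2))) : ℝ) : ℂ) := by
    unfold g00 stepf; push_cast; ring
  have h2 : pl k u = Real.smoothTransition (2 * (u - (-1))) -
      Real.smoothTransition (2 * (u - (2 * k + 1/2))) := by
    unfold pl; rw [h1, ofReal_re]
  refine ⟨?_, ?_, ?_⟩
  · rw [h2, ← h1]
    unfold gal
    simp
  · rw [h2]
    rcases le_total u 0 with h | h
    · rw [Real.smoothTransition.zero_of_nonpos (x := 2 * (u - (2 * k + 1/2))) (by linarith), sub_zero]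
      exact Real.smoothTransition.nonneg _
    · rw [Real.smoothTransition.one_of_one_le (x := 2 * (u - (-1))) (by linarith)]
      linarith [Real.smoothTransition.le_one (2 * (u - (2 * k + 1/2)))]
  · rw [h2]
    linarith [Real.smoothTransition.le_one (2 * (u - (-1))),
      Real.smoothTransition.nonneg (2 * (u - (2 * k + 1/2)))]

theorem Q0_lim (k : ℕ) : Tendsto (fun T : ℝ => 2 * Real.pi * Qk k 0 T -
    ∫ α : ℝ, G (gal k 0) (α * I) * Qk k α T) atTop (𝓝 0) := by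
  obtain ⟨M, e, he, hU⟩ := unif_rep k
  refine squeeze_zero_norm' ?_ he
  filter_upwards [hU] with T hT
  have := hT 0
  simpa using this

theorem Jn_Q (k : ℕ) (T : ℝ) : Qk k 0 T = ((Jn k T : ℝ) : ℂ) := Qk_zero k T

/-- plateau: no mass outside `[0,2k]` -/
theorem off_pl (k : ℕ) : Tendsto (fun T : ℝ => Jn k T - (2 * Real.pi)⁻¹ *
    (∫ α : ℝ, G (fun u => ((pl k u : ℝ) : ℂ)) (α * I) * Qk k α T).re) atTop (𝓝 0) := by
  have h0 : (fun u => ((pl k u : ℝ) : ℂ)) = gal k 0 := funext fun u => (pl_eq k u).1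
  rw [h0]
  have h1 := ((Complex.continuous_re.tendsto _).comp (Q0_lim k)).const_mul (2 * Real.pi)⁻¹
  rw [zero_re, mul_zero] at h1
  refine h1.congr fun T => ?_
  simp only [Function.comp, sub_re, Jn_Q]
  have : (2 * (Real.pi : ℂ) * ((Jn k T : ℝ) : ℂ)).re = 2 * Real.pi * Jn k T := by
    rw [← ofReal_ofNat, ← ofReal_mul, ← ofReal_mul, ofReal_re]
  rw [this]
  have h2 : (2 * Real.pi) ≠ 0 := by positivity
  rw [mul_sub, inv_mul_cancel_left₀ h2]

/-- the mass off the middle range converges -/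
theorem off_rho (hk : 1 ≤ k) {ε : ℝ} (hε : 0 < ε) (hε1 : ε ≤ 1) : ∃ ℓ : ℝ,
    Tendsto (fun T : ℝ => Jn k T - (2 * Real.pi)⁻¹ *
      (∫ α : ℝ, G (fun u => ((rhoM k ε u : ℝ) : ℂ)) (α * I) * Qk k α T).re) atTop (𝓝 ℓ) := by
  have t0 := gal_TF k 0
  have t1 := rho_TF hk hε hε1
  set g : ℝ → ℂ := fun u => gal k 0 u - ((rhoM k ε u : ℝ) : ℂ) with hg
  have tg : TF g (-1) (2 * k + 1) := by
    refine ⟨t0.smooth.sub t1.smooth, ?_⟩
    refine closure_minimal ?_ isClosed_Icc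
    intro u hu
    by_contra hcon
    apply hu
    have a0 : gal k 0 u = 0 := image_eq_zero_of_notMem_tsupport fun h => hcon (t0.supp h)
    have a1 : ((rhoM k ε u : ℝ) : ℂ) = 0 :=
      image_eq_zero_of_notMem_tsupport (f := fun u => ((rhoM k ε u : ℝ) : ℂ)) fun h => hcon (t1.supp h)
    show gal k 0 u - ((rhoM k ε u : ℝ) : ℂ) = 0
    rw [a0, a1, sub_zero]
  have hs : ∀ u ∈ tsupport g, u < 2 ∨ 2 * (k:ℝ) - 2 < u := by
    intro u hu
    by_contra hcon
    rw [not_or, not_lt, not_lt] at hcon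
    have hz : g =ᶠ[𝓝 u] 0 := by
      filter_upwards [(lt_mem_nhds (show 2 - ε / 2 < u by linarith)),
        (gt_mem_nhds (show u < 2 * (k:ℝ) - 2 + ε / 2 by linarith))] with v h1 h2
      simp only [hg, Pi.zero_apply]
      rw [rhoM_one hε h1.le h2.le]
      unfold gal
      rw [g00_one k (by linarith) (by linarith)]
      simp
    exact notMem_tsupport_iff_eventuallyEq.2 hz hu
  obtain ⟨ℓ, hℓ⟩ := main0 hk tg.smooth tg.hcs hs
  have hG : ∀ w, G (gal k 0) w = G g w + G (fun u => ((rhoM k ε u : ℝ) : ℂ)) w :=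
    G_add tg t1 (fun u => by simp only [hg]; ring)
  have h1 := ((Complex.continuous_re.tendsto _).comp ((Q0_lim k).add hℓ)).const_mul (2 * Real.pi)⁻¹
  refine ⟨_, h1.congr' ?_⟩
  filter_upwards [eventually_gt_atTop (1:ℝ)] with T hT
  have e1 : ∫ α : ℝ, G (gal k 0) (α * I) * Qk k α T = (∫ α : ℝ, G g (α * I) * Qk k α T) +
      ∫ α : ℝ, G (fun u => ((rhoM k ε u : ℝ) : ℂ)) (α * I) * Qk k α T := by
    rw [← integral_add (Qk_integrable (k := k) tg hT) (Qk_integrable (k := k) t1 hT)]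
    refine integral_congr_ae (Eventually.of_forall fun α => ?_)
    simp only [hG]; ring
  simp only [Function.comp]
  rw [e1, Jn_Q]
  simp only [sub_re, add_re]
  have : (2 * (Real.pi : ℂ) * ((Jn k T : ℝ) : ℂ)).re = 2 * Real.pi * Jn k T := by
    rw [← ofReal_ofNat, ← ofReal_mul, ← ofReal_mul, ofReal_re]
  rw [this]
  have h2 : (2 * Real.pi) ≠ 0 := by positivity
  generalize (∫ α : ℝ, G g (α * I) * Qk k α T).re = J1
  generalize (∫ α : ℝ, G (fun u => ((rhoM k ε u : ℝ) : ℂ)) (α * I) * Qk k α T).re = J2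
  rw [show 2 * Real.pi * Jn k T - (J1 + J2) + J1 = 2 * Real.pi * Jn k T - J2 by ring, mul_sub,
    inv_mul_cancel_left₀ h2]

/-- the off mass for the positive definite function -/
theorem off_RT {φ : ℝ → ℝ} {A B : ℝ} (hφ : TF (fun u => (φ u : ℂ)) A B) (k : ℕ) : ∃ D C : ℝ,
    0 ≤ D ∧ 0 ≤ C ∧ ∀ T : ℝ, Real.exp 1 ≤ T →
      Jn k T - (2 * Real.pi)⁻¹ * (∫ β : ℝ, G (fun u => (φ u : ℂ)) (β * I) * RT k β T).re ≤
      Jn k T - (2 * Real.pi)⁻¹ * (∫ β : ℝ, G (fun u => (φ u : ℂ)) (β * I) * Qk k β T).re +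
        D * (Eg k T + C * (sc k T)⁻¹) := by
  obtain ⟨D, C, hD, hC, h⟩ := QR_int hφ k
  refine ⟨(2 * Real.pi)⁻¹ * D, C, by positivity, hC, fun T hT => ?_⟩
  have h1 := h T hT
  have h2 := (abs_le.1 ((Complex.abs_re_le_norm _).trans h1)).2
  rw [sub_re] at h2
  have h3 := mul_le_mul_of_nonneg_left h2 (show 0 ≤ (2 * Real.pi)⁻¹ by positivity)
  rw [mul_sub] at h3
  rw [mul_assoc]
  linarith

theorem PP_lip (x : Fin m → ℝ) (c : Fin m → ℂ) (u u' : ℝ) :
    ‖PP x c u - PP x c u'‖ ≤ (∑ j, ‖c j‖ * |x j|) * |u - u'| := by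
  unfold PP
  rw [← Finset.sum_sub_distrib, Finset.sum_mul]
  refine (norm_sum_le _ _).trans (Finset.sum_le_sum fun j _ => ?_)
  rw [← mul_sub, norm_mul, mul_assoc ‖c j‖ |x j|]
  refine mul_le_mul_of_nonneg_left ?_ (norm_nonneg _)
  have h1 : (exp (-(I * x j * u)) - exp (-(I * x j * u')) : ℂ) =
      exp (((-(x j * u') : ℝ) : ℂ) * I) * (exp (I * ((-(x j * (u - u')) : ℝ) : ℂ)) - 1) := by
    rw [mul_sub, ← exp_add, mul_one]
    congr 2
    · push_cast; ring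
    · push_cast; ring
  rw [h1, norm_mul, norm_exp_ofReal_mul_I, one_mul]
  refine (Real.norm_exp_I_mul_ofReal_sub_one_le).trans ?_
  rw [Real.norm_eq_abs, abs_neg, abs_mul]

/-- positivity near the middle range -/
theorem pos_near (hk : 1 ≤ k) (x : Fin m → ℝ) (c : Fin m → ℂ)
    (hD : ∀ u : ℝ, 2 ≤ u → u ≤ 2 * (k:ℝ) - 2 → 0 < (PP x c u).re) :
    ∃ ε c0 : ℝ, 0 < ε ∧ ε ≤ 1 ∧ 0 < c0 ∧
      ∀ u : ℝ, 2 - 3 * ε / 4 ≤ u → u ≤ 2 * (k:ℝ) - 2 + 3 * ε / 4 → c0 ≤ (PP x c u).re := by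
  have hk' : (1:ℝ) ≤ k := by exact_mod_cast hk
  rcases Nat.lt_or_ge k 2 with h2 | h2
  · have hk1 : k = 1 := by omega
    refine ⟨1/2, 1, by norm_num, by norm_num, by norm_num, ?_⟩
    intro u h3 h4
    rw [hk1] at h4
    norm_num at h4
    linarith
  · have hk2 : (2:ℝ) ≤ k := by exact_mod_cast h2
    obtain ⟨u0, hu0, hmin⟩ := isCompact_Icc.exists_isMinOn (s := Icc (2:ℝ) (2 * (k:ℝ) - 2))
      ⟨2, le_rfl, by linarith⟩ ((Complex.continuous_re.comp (PP_cont x c)).continuousOn)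
    set d : ℝ := (PP x c u0).re with hd
    have hd0 : 0 < d := hD u0 hu0.1 hu0.2
    set Λ : ℝ := ∑ j, ‖c j‖ * |x j| with hΛ
    have hΛ0 : 0 ≤ Λ := Finset.sum_nonneg fun j _ => by positivity
    refine ⟨min 1 (d / (2 * (Λ + 1))), d / 2, lt_min one_pos (by positivity), min_le_left _ _,
      by positivity, ?_⟩
    set ε := min 1 (d / (2 * (Λ + 1))) with hε
    have hε0 : 0 < ε := lt_min one_pos (by positivity)
    have hε2 : Λ * ε ≤ d / 2 := by
      have : ε * (2 * (Λ + 1)) ≤ d := by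
        rw [← le_div_iff₀ (by positivity)]; exact min_le_right _ _
      nlinarith
    intro u h3 h4
    have key : ∀ v : ℝ, v ∈ Icc (2:ℝ) (2 * (k:ℝ) - 2) → |u - v| ≤ ε → d / 2 ≤ (PP x c u).re := by
      intro v hv huv
      have h5 : d ≤ (PP x c v).re := hmin hv
      have h6 := PP_lip x c u v
      have h7 := (abs_le.1 ((Complex.abs_re_le_norm _).trans h6)).1
      rw [sub_re] at h7
      have h8 : Λ * |u - v| ≤ Λ * ε := by gcongr
      linarith
    rcases lt_or_ge u 2 with h5 | h5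
    · exact key 2 ⟨le_rfl, by linarith⟩ (by rw [abs_le]; constructor <;> linarith)
    · rcases le_or_gt u (2 * (k:ℝ) - 2) with h6 | h6
      · exact key u ⟨h5, h6⟩ (by simp [hε0.le])
      · exact key (2 * (k:ℝ) - 2) ⟨by linarith, le_rfl⟩ (by rw [abs_le]; constructor <;> linarith)

/-- **Main inequality.** -/
theorem main_ineq (hk : 1 ≤ k) (x : Fin m → ℝ) (c : Fin m → ℂ)
    (hD : ∀ u : ℝ, 2 ≤ u → u ≤ 2 * (k:ℝ) - 2 → 0 < (PP x c u).re) :
    ∃ C : ℝ, 0 ≤ C ∧ ∀ᶠ T : ℝ in atTop,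
      Jn k T ≤ C * (1 + Eg k T + max 0 (∑ j, c j * Qk k (x j) T).re) := by
  obtain ⟨ε, c0, hε, hε1, hc0, hpos⟩ := pos_near hk x c hD
  have t1 := rho_TF hk hε hε1
  obtain ⟨ℓ, hℓ⟩ := off_rho hk hε hε1
  obtain ⟨D, C1, hD0, hC1, hoff⟩ := off_RT t1 k
  obtain ⟨M, C2, hC2, hQR⟩ := QR_bound k
  set S : ℝ := ∑ j, ‖c j‖ with hS
  have hS0 : 0 ≤ S := Finset.sum_nonneg fun j _ => norm_nonneg _
  set S2 : ℝ := ∑ j, ‖c j‖ * (1 + |x j|) ^ M with hS2
  have hS20 : 0 ≤ S2 := Finset.sum_nonneg fun j _ => by positivity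
  have hrange : ∀ u, c0 * rhoM k ε u - S * (1 - rhoM k ε u) ≤ (PP x c u).re := by
    intro u
    have h0 := rho_range k ε u
    by_cases h : rhoM k ε u = 0
    · rw [h, mul_zero, sub_zero, mul_one, zero_sub]
      exact (abs_le.1 ((Complex.abs_re_le_norm _).trans (PP_norm x c u))).1
    · have h1 := rhoM_ne hε h
      have h2 := hpos u h1.1 h1.2
      have h3 : 0 ≤ S * (1 - rhoM k ε u) := mul_nonneg hS0 (by linarith)
      nlinarith
  refine ⟨c0⁻¹ * ((S + c0) * (|ℓ| + 1 + D * (1 + C1)) + S2 * (1 + C2) + 1), by positivity, ?_⟩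
  have hsc := (sc_atTop k).eventually (eventually_ge_atTop (1:ℝ))
  filter_upwards [eventually_ge_atTop (Real.exp 1), hsc,
    hℓ.eventually (gt_mem_nhds (show ℓ < |ℓ| + 1 by linarith [le_abs_self ℓ]))] with T hT hs hl
  have hexp1 : (2:ℝ) ≤ Real.exp 1 := by have := Real.add_one_le_exp (1:ℝ); linarith
  have hE := Eg_nonneg k hT
  have hsi : (sc k T)⁻¹ ≤ 1 := inv_le_one_of_one_le₀ hs
  have hsi0 : 0 ≤ (sc k T)⁻¹ := by positivity
  have p1 := pos_ineq (k := k) x c t1 hrange (T := T) (by linarith)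
  have p2 := hoff T hT
  set X := Jn k T with hX
  set off := X - (2 * Real.pi)⁻¹ *
      (∫ β : ℝ, G (fun u => ((rhoM k ε u : ℝ) : ℂ)) (β * I) * RT k β T).re with hoffd
  have p3 : off ≤ (|ℓ| + 1 + D * (1 + C1)) * (1 + Eg k T) := by
    have e1 : C1 * (sc k T)⁻¹ ≤ C1 := mul_le_of_le_one_right hC1 hsi
    have e2 : D * (Eg k T + C1 * (sc k T)⁻¹) ≤ D * (Eg k T + C1) := by gcongr
    have e3 : D * (Eg k T + C1) ≤ D * (1 + C1) * (1 + Eg k T) := by
      have : 0 ≤ D * (1 + C1 * Eg k T) := by positivity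
      nlinarith
    have e4 : 0 ≤ (|ℓ| + 1) * Eg k T := by positivity
    nlinarith
  have p4 : (∑ j, c j * RT k (x j) T).re ≤ max 0 (∑ j, c j * Qk k (x j) T).re +
      S2 * (1 + C2) * (1 + Eg k T) := by
    have e1 : ‖(∑ j, c j * Qk k (x j) T) - ∑ j, c j * RT k (x j) T‖ ≤ S2 * (Eg k T + C2 * (sc k T)⁻¹) := by
      rw [← Finset.sum_sub_distrib, hS2, Finset.sum_mul]
      refine (norm_sum_le _ _).trans (Finset.sum_le_sum fun j _ => ?_)
      rw [← mul_sub, norm_mul, mul_assoc]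
      refine mul_le_mul_of_nonneg_left ?_ (norm_nonneg _)
      rw [mul_comm]
      exact hQR T hT (x j)
    have e2 := (abs_le.1 ((Complex.abs_re_le_norm _).trans e1)).1
    rw [sub_re] at e2
    have e3 : C2 * (sc k T)⁻¹ ≤ C2 := mul_le_of_le_one_right hC2 hsi
    have e4 : S2 * (Eg k T + C2 * (sc k T)⁻¹) ≤ S2 * (Eg k T + C2) := by gcongr
    have e5 : S2 * (Eg k T + C2) ≤ S2 * (1 + C2) * (1 + Eg k T) := by
      have : 0 ≤ S2 * (1 + C2 * Eg k T) := by positivity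
      nlinarith
    have e6 := le_max_right 0 (∑ j, c j * Qk k (x j) T).re
    linarith
  set mx := max 0 (∑ j, c j * Qk k (x j) T).re with hmx
  have hmx0 : 0 ≤ mx := le_max_left _ _
  have p5 : c0 * X ≤ ((S + c0) * (|ℓ| + 1 + D * (1 + C1)) + S2 * (1 + C2) + 1) * (1 + Eg k T + mx) := by
    have e1 : (S + c0) * off ≤ (S + c0) * ((|ℓ| + 1 + D * (1 + C1)) * (1 + Eg k T)) := by gcongr
    have e2 : 0 ≤ (S + c0) * (|ℓ| + 1 + D * (1 + C1)) := by positivity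
    have e3 : 0 ≤ S2 * (1 + C2) := by positivity
    have e4 : 0 ≤ (S + c0) * (|ℓ| + 1 + D * (1 + C1)) * mx := by positivity
    have e5 : 0 ≤ S2 * (1 + C2) * mx := by positivity
    nlinarith
  rw [mul_assoc, ← div_le_iff₀' (by positivity), div_inv_eq_mul, mul_comm]
  exact p5

end RGX
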