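import Pool.Agent.Lib.MP_069854_nt.RG.RGN

namespace RGX
open MP069854
open Filter Topology Complex Set MeasureTheory AddCircle
open scoped ComplexConjugate ContDiff

section
variable {P : ℝ} [hP : Fact (0 < P)] {a b : ℝ}

/-- the map of the interval to the circle -/
noncomputable def em (P a b : ℝ) : C(Icc a b, AddCircle P) :=
  ⟨fun u => ((u : ℝ) : AddCircle P), (AddCircle.continuous_mk' P).comp continuous_subtype_val⟩

theorem em_inj (h : b - a < P) : Function.Injective (em P a b) := by
  intro u v huv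
  have h1 : ((u : ℝ) : AddCircle P) = ((v : ℝ) : AddCircle P) := huv
  have hu : (u : ℝ) ∈ Ico a (a + P) := ⟨u.2.1, by linarith [u.2.2]⟩
  have hv : (v : ℝ) ∈ Ico a (a + P) := ⟨v.2.1, by linarith [v.2.2]⟩
  exact Subtype.ext ((AddCircle.coe_eq_coe_iff_of_mem_Ico hu hv).1 h1)

theorem em_emb (h : b - a < P) : IsClosedEmbedding (em P a b) :=
  (em P a b).continuous.isClosedEmbedding (em_inj h)

/-- integration against a continuous function, as a functional on the circle -/
noncomputable def If (p : C(AddCircle P, ℂ)) : C(AddCircle P, ℂ) →ₗ[ℂ] ℂ where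
  toFun H := ∫ x, H x * p x ∂haarAddCircle
  map_add' H K := by
    have i1 : Integrable (fun x => H x * p x) haarAddCircle :=
      (H * p).continuous.integrable_of_hasCompactSupport (HasCompactSupport.of_compactSpace _)
    have i2 : Integrable (fun x => K x * p x) haarAddCircle :=
      (K * p).continuous.integrable_of_hasCompactSupport (HasCompactSupport.of_compactSpace _)
    rw [← integral_add i1 i2]
    refine integral_congr_ae (Eventually.of_forall fun x => ?_)
    simp only [ContinuousMap.add_apply]; ring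
  map_smul' c H := by
    rw [RingHom.id_apply, smul_eq_mul, ← integral_const_mul]
    refine integral_congr_ae (Eventually.of_forall fun x => ?_)
    simp only [ContinuousMap.smul_apply, smul_eq_mul]; ring

theorem If_cont (p : C(AddCircle P, ℂ)) : Continuous (If p) := by
  refine (LinearMap.mkContinuous (If p) ‖p‖ fun H => ?_).continuous
  show ‖∫ x, H x * p x ∂haarAddCircle‖ ≤ _
  have h1 := norm_integral_le_of_norm_le_const (μ := (haarAddCircle : Measure (AddCircle P)))
    (f := fun x => H x * p x) (C := ‖p‖ * ‖H‖) (Eventually.of_forall fun x => by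
      rw [norm_mul, mul_comm]
      exact mul_le_mul (p.norm_coe_le_norm x) (H.norm_coe_le_norm x) (norm_nonneg _) (norm_nonneg _))
  simpa using h1

theorem If_fourier (s : Finset ℤ) (α : ℤ → ℂ) (m : ℤ) :
    If (∑ n ∈ s, α n • (fourier n : C(AddCircle P, ℂ))) (fourier (-m)) = if m ∈ s then α m else 0 := by
  have h1 : If (∑ n ∈ s, α n • (fourier n : C(AddCircle P, ℂ))) (fourier (-m)) =
      ∑ n ∈ s, α n * fourierCoeff (fourier n : C(AddCircle P, ℂ)) m := by
    show ∫ x, (fourier (-m) : C(AddCircle P, ℂ)) x * (∑ n ∈ s, α n • (fourier n : C(AddCircle P, ℂ))) x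
      ∂haarAddCircle = _
    have e : ∀ x : AddCircle P, (fourier (-m) : C(AddCircle P, ℂ)) x *
        (∑ n ∈ s, α n • (fourier n : C(AddCircle P, ℂ))) x =
        ∑ n ∈ s, α n * ((fourier (-m) : C(AddCircle P, ℂ)) x * (fourier n : C(AddCircle P, ℂ)) x) := by
      intro x
      rw [ContinuousMap.sum_apply, Finset.mul_sum]
      refine Finset.sum_congr rfl fun n _ => ?_
      rw [ContinuousMap.smul_apply, smul_eq_mul]; ring
    simp_rw [e]
    rw [integral_finsetSum]
    · refine Finset.sum_congr rfl fun n _ => ?_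
      rw [integral_const_mul]
      rfl
    · intro n _
      have := ((fourier (-m) : C(AddCircle P, ℂ)) * (fourier n : C(AddCircle P, ℂ))).continuous
      exact (this.integrable_of_hasCompactSupport (HasCompactSupport.of_compactSpace _)).const_mul (α n)
  rw [h1]
  have h2 : ∀ n : ℤ, fourierCoeff (fourier n : C(AddCircle P, ℂ)) m = if m = n then 1 else 0 := by
    intro n
    rw [fourierCoeff_fourier]
    simp [Pi.single_apply]
  simp_rw [h2, mul_ite, mul_one, mul_zero]
  rw [Finset.sum_ite_eq]

/-- a functional supported on an arc is an integral if it vanishes off finitely many frequencies -/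
theorem comp_eq (f : StrongDual ℂ C(Icc a b, ℂ)) (s : Finset ℤ)
    (hf : ∀ n : ℤ, n ∉ s → f ((fourier (-n) : C(AddCircle P, ℂ)).comp (em P a b)) = 0)
    (H : C(AddCircle P, ℂ)) :
    f (H.comp (em P a b)) = If (∑ n ∈ s, (f ((fourier (-n) : C(AddCircle P, ℂ)).comp (em P a b))) •
      (fourier n : C(AddCircle P, ℂ))) H := by
  set α : ℤ → ℂ := fun n => f ((fourier (-n) : C(AddCircle P, ℂ)).comp (em P a b)) with hα
  set p : C(AddCircle P, ℂ) := ∑ n ∈ s, α n • (fourier n : C(AddCircle P, ℂ)) with hp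
  let Λ : C(AddCircle P, ℂ) →ₗ[ℂ] ℂ :=
    f.toLinearMap ∘ₗ (ContinuousMap.compRightAlgHom ℂ ℂ (em P a b)).toLinearMap - If p
  have hΛ : Continuous Λ := by
    show Continuous fun H : C(AddCircle P, ℂ) => f (H.comp (em P a b)) - If p H
    exact (f.continuous.comp (ContinuousMap.continuous_precomp (em P a b))).sub (If_cont p)
  have h1 : Submodule.span ℂ (range <| @fourier P) ≤ LinearMap.ker Λ := by
    rw [Submodule.span_le]
    rintro _ ⟨n, rfl⟩
    show f ((fourier n : C(AddCircle P, ℂ)).comp (em P a b)) - If p (fourier n) = 0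
    have h2 := If_fourier (P := P) s α (-n)
    rw [neg_neg] at h2
    rw [h2]
    split_ifs with hn
    · rw [hα]; simp
    · have := hf (-n) hn
      rw [neg_neg] at this
      rw [this, sub_zero]
  have h2 : IsClosed (LinearMap.ker Λ : Set C(AddCircle P, ℂ)) := by
    have : (LinearMap.ker Λ : Set C(AddCircle P, ℂ)) = Λ ⁻¹' {0} := by
      ext H; simp [LinearMap.mem_ker]
    rw [this]
    exact isClosed_singleton.preimage hΛ
  have h3 := Submodule.topologicalClosure_minimal _ h1 h2
  rw [span_fourier_closure_eq_top] at h3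
  have h4 : H ∈ LinearMap.ker Λ := h3 trivial
  have h5 : f (H.comp (em P a b)) - If p H = 0 := LinearMap.mem_ker.1 h4
  exact sub_eq_zero.1 h5

theorem off_zero (f : StrongDual ℂ C(Icc a b, ℂ)) (p : C(AddCircle P, ℂ))
    (h : ∀ H : C(AddCircle P, ℂ), f (H.comp (em P a b)) = If p H) {x : AddCircle P}
    (hne : a ≤ b) (hx : x ∉ range (em P a b)) : p x = 0 := by
  have hcl : IsClosed (range (em P a b)) := (isCompact_range (em P a b).continuous).isClosed
  have hnon : (range (em P a b)).Nonempty := ⟨_, ⟨⟨a, le_rfl, hne⟩, rfl⟩⟩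
  set ψ : AddCircle P → ℝ := fun x => Metric.infDist x (range (em P a b)) with hψ
  have hψc : Continuous ψ := Metric.continuous_infDist_pt _
  let H : C(AddCircle P, ℂ) := ⟨fun x => (ψ x : ℂ) * conj (p x),
    (Complex.continuous_ofReal.comp hψc).mul (Complex.continuous_conj.comp p.continuous)⟩
  have h0 : H.comp (em P a b) = 0 := by
    ext u
    show (ψ (em P a b u) : ℂ) * conj (p (em P a b u)) = 0
    have : ψ (em P a b u) = 0 := Metric.infDist_zero_of_mem ⟨u, rfl⟩
    rw [this]; simp
  have h1 := h H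
  rw [h0, map_zero] at h1
  have h2 : If p H = ((∫ x, ψ x * ‖p x‖ ^ 2 ∂haarAddCircle : ℝ) : ℂ) := by
    show ∫ x, H x * p x ∂haarAddCircle = _
    rw [← integral_complex_ofReal]
    refine integral_congr_ae (Eventually.of_forall fun x => ?_)
    show (ψ x : ℂ) * conj (p x) * p x = _
    rw [mul_assoc, mul_comm (conj (p x)), Complex.mul_conj, Complex.normSq_eq_norm_sq]
    push_cast; ring
  rw [h2] at h1
  have h3 : ∫ x, ψ x * ‖p x‖ ^ 2 ∂(haarAddCircle : Measure (AddCircle P)) = 0 := by exact_mod_cast h1.symm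
  by_contra hpx
  have hpos : 0 < ψ x := (hcl.notMem_iff_infDist_pos hnon).1 hx
  have h4 := Continuous.integral_pos_of_hasCompactSupport_nonneg_nonzero
    (μ := (haarAddCircle : Measure (AddCircle P))) (f := fun x => ψ x * ‖p x‖ ^ 2) (x := x)
    (hψc.mul (p.continuous.norm.pow 2)) (HasCompactSupport.of_compactSpace _)
    (fun x => mul_nonneg Metric.infDist_nonneg (by positivity)) (by
      have : 0 < ‖p x‖ := norm_pos_iff.2 hpx
      positivity)
  linarith

end

/-- **Density**: all but finitely many points of a lattice -/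
theorem ann_lat {a b d : ℝ} (hd : 0 < d) (hab : a ≤ b) (h : (b - a) * d < 2 * Real.pi) (s : Finset ℤ)
    (y : ℝ) (f : StrongDual ℂ C(Icc a b, ℂ)) (hf : ∀ n : ℤ, n ∉ s → f (ph a b ((n * d : ℝ) : ℂ)) = 0) :
    f (ph a b (y : ℂ)) = 0 := by
  set P : ℝ := 2 * Real.pi / d with hP
  have hP0 : 0 < P := by have := Real.pi_pos; positivity
  haveI : Fact (0 < P) := ⟨hP0⟩
  have hbP : b - a < P := by rw [hP, lt_div_iff₀ hd]; exact h
  have hfp : ∀ n : ℤ, ∀ t : ℝ, fourier n ((t : ℝ) : AddCircle P) = exp (I * (n * d : ℝ) * t) := by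
    intro n t
    rw [fourier_coe_apply]
    congr 1
    rw [hP]
    push_cast
    have h1 : (d : ℂ) ≠ 0 := by exact_mod_cast hd.ne'
    have h2 : (Real.pi : ℂ) ≠ 0 := by exact_mod_cast Real.pi_ne_zero
    field_simp
  have hph : ∀ n : ℤ, (fourier (-n) : C(AddCircle P, ℂ)).comp (em P a b) = ph a b ((n * d : ℝ) : ℂ) := by
    intro n
    ext u
    show fourier (-n) ((u : ℝ) : AddCircle P) = _
    rw [hfp, ph_apply]
    congr 1
    push_cast; ring
  set α : ℤ → ℂ := fun n => f ((fourier (-n) : C(AddCircle P, ℂ)).comp (em P a b)) with hα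
  set p : C(AddCircle P, ℂ) := ∑ n ∈ s, α n • (fourier n : C(AddCircle P, ℂ)) with hp
  have key : ∀ H : C(AddCircle P, ℂ), f (H.comp (em P a b)) = If p H :=
    comp_eq f s (fun n hn => by rw [hph]; exact hf n hn)
  -- `p` vanishes on the complementary arc
  have hgap : ∀ t : ℝ, b < t → t < a + P → p ((t : ℝ) : AddCircle P) = 0 := by
    intro t h1 h2
    refine off_zero f p key hab ?_
    rintro ⟨u, hu⟩
    have h3 : ((u : ℝ) : AddCircle P) = ((t : ℝ) : AddCircle P) := hu
    have h4 := (AddCircle.coe_eq_coe_iff_of_mem_Ico (p := P) (a := a) (x := (u : ℝ)) (y := t)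
      ⟨u.2.1, by linarith [u.2.2]⟩ ⟨by linarith, h2⟩).1 h3
    linarith [u.2.2]
  set q : ℂ → ℂ := fun z => ∑ n ∈ s, α n * exp (I * (n * d : ℝ) * z) with hq
  have hqp : ∀ t : ℝ, p ((t : ℝ) : AddCircle P) = q (t : ℂ) := by
    intro t
    rw [hp, hq, ContinuousMap.sum_apply]
    refine Finset.sum_congr rfl fun n _ => ?_
    rw [ContinuousMap.smul_apply, smul_eq_mul, hfp]
  have hq0 : q = fun _ => 0 := by
    have hdq : Differentiable ℂ q := by
      rw [hq]; fun_prop
    have ha : AnalyticOnNhd ℂ q univ := fun z _ => hdq.analyticAt z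
    have hb : AnalyticOnNhd ℂ (fun _ : ℂ => (0:ℂ)) univ := fun z _ => analyticAt_const
    set t0 : ℝ := (b + (a + P)) / 2 with ht0
    refine AnalyticOnNhd.eq_of_frequently_eq (z₀ := (t0 : ℂ)) ha hb ?_
    have ht : Tendsto (fun x : ℝ => (x : ℂ)) (𝓝[≠] t0) (𝓝[≠] (t0 : ℂ)) := by
      refine tendsto_nhdsWithin_iff.2 ⟨(Complex.continuous_ofReal.tendsto t0).mono_left nhdsWithin_le_nhds, ?_⟩
      filter_upwards [self_mem_nhdsWithin] with x hx
      simpa using hx
    refine ht.frequently (Eventually.frequently ?_)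
    refine nhdsWithin_le_nhds ?_
    filter_upwards [Ioo_mem_nhds (show b < t0 by rw [ht0]; linarith) (show t0 < a + P by rw [ht0]; linarith)]
      with x hx
    rw [← hqp]
    exact hgap x hx.1 hx.2
  have hp0 : p = 0 := by
    ext x
    induction x using QuotientAddGroup.induction_on with
    | H t =>
      have := hqp t
      rw [hq0] at this
      exact this
  obtain ⟨H, hH⟩ := ContinuousMap.exists_extension (em_emb hbP) (ph a b (y : ℂ))
  have h5 : H.comp (em P a b) = ph a b (y : ℂ) := hH
  rw [← h5, key, hp0]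
  show ∫ x, H x * (0 : C(AddCircle P, ℂ)) x ∂haarAddCircle = 0
  simp

end RGX
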