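import Pool.Agent.Lib.MP_069854_nt.RG.RGD
import Pool.Agent.Lib.MP_069854_nt.RG.RGL

namespace RGX
open MP069854
open Filter Topology Complex Set MeasureTheory
open scoped ComplexConjugate ContDiff

variable {k m : ℕ}

/-- determining sets: the exponentials with frequencies in `J` are dense on `[2,2k-2]` -/
def Det (k : ℕ) (J : Set ℝ) : Prop :=
  ∀ y ε : ℝ, 0 < ε → ∃ (m : ℕ) (x : Fin m → ℝ) (c : Fin m → ℂ), (∀ j, x j ∈ J) ∧
    ∀ u : ℝ, 2 ≤ u → u ≤ 2 * (k:ℝ) - 2 → ‖exp (-(I * y * u)) - PP x c u‖ ≤ ε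

theorem det_acc (k : ℕ) {J : Set ℝ} {p : ℝ} (hp : AccPt p (𝓟 J)) : Det k J := fun y _ε hε =>
  dense_of 2 (2 * (k:ℝ) - 2) (J := J) (y := y) (fun f hf => ann_acc _ _ hp y f hf) hε

theorem det_lat (hk : 1 ≤ k) {J : Set ℝ} {d : ℝ} (hd : 0 < d) (hdk : d * ((k:ℝ) - 2) < Real.pi)
    {F : Set ℤ} (hF : F.Finite) (hJ : ∀ n : ℤ, n ∉ F → (n:ℝ) * d ∈ J) : Det k J := by
  intro y ε hε
  have hk' : (1:ℝ) ≤ k := by exact_mod_cast hk
  rcases Nat.lt_or_ge k 2 with h2 | h2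
  · have hk1 : k = 1 := by omega
    refine ⟨0, fun j => j.elim0, fun j => j.elim0, fun j => j.elim0, fun u h3 h4 => ?_⟩
    rw [hk1] at h4
    norm_num at h4
    linarith
  · have hk2 : (2:ℝ) ≤ k := by exact_mod_cast h2
    refine dense_of 2 (2 * (k:ℝ) - 2) (J := J) (y := y) (fun f hf => ?_) hε
    refine ann_lat hd (by linarith) (by nlinarith) hF.toFinset y f fun n hn => ?_
    exact hf _ (hJ n (by simpa using hn))

/-- boundedness of the moment from an upper bound for a positive combination of shifts -/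
theorem bdd_of_pos (hk : 1 ≤ k) (x : Fin m → ℝ) (c : Fin m → ℂ)
    (hD : ∀ u : ℝ, 2 ≤ u → u ≤ 2 * (k:ℝ) - 2 → 0 < (PP x c u).re)
    (hB : ∃ B : ℝ, ∀ᶠ T : ℝ in atTop, (∑ j, c j * Qk k (x j) T).re ≤ B) :
    ∃ B : ℝ, ∀ᶠ T : ℝ in atTop, Jn k T ≤ B := by
  obtain ⟨C, hC, h⟩ := main_ineq hk x c hD
  obtain ⟨B, hB⟩ := hB
  refine bdd_of_edge k (C := C * (1 + |B|)) (by positivity) ?_
  filter_upwards [h, hB, eventually_ge_atTop (Real.exp 1)] with T h1 h2 hT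
  have hE := Eg_nonneg k hT
  have h3 : max 0 (∑ j, c j * Qk k (x j) T).re ≤ |B| :=
    max_le (abs_nonneg B) (h2.trans (le_abs_self B))
  calc Jn k T ≤ C * (1 + Eg k T + max 0 (∑ j, c j * Qk k (x j) T).re) := h1
    _ ≤ C * (1 + Eg k T + |B|) := by gcongr
    _ ≤ C * ((1 + |B|) * (1 + Eg k T)) := by
        gcongr
        nlinarith [mul_nonneg (abs_nonneg B) hE]
    _ = _ := by ring

/-- boundedness of the shifted moments from boundedness of the moment -/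
theorem Q_bdd {B : ℝ} (h : ∀ᶠ T : ℝ in atTop, Jn k T ≤ B) (x : ℝ) :
    ∃ B' : ℝ, ∀ᶠ T : ℝ in atTop, ‖Qk k x T‖ ≤ B' := by
  obtain ⟨C, T0, hC, hT0, hb⟩ := growth h
  refine ⟨C * (1 + |x|) ^ (k ^ 2 + 1), ?_⟩
  filter_upwards [eventually_ge_atTop T0] with T hT
  exact (Qk_norm k x (hT0.trans hT)).trans (hb T hT |x| (abs_nonneg x))

/-- **order of magnitude from the shifts in `J`** -/
theorem bdd_iff (hk : 1 ≤ k) {J : Set ℝ} (hJ : Det k J) :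
    (∃ B : ℝ, ∀ᶠ T : ℝ in atTop, Jn k T ≤ B) ↔
      ∀ x ∈ J, ∃ B : ℝ, ∀ᶠ T : ℝ in atTop, ‖Qk k x T‖ ≤ B := by
  constructor
  · rintro ⟨B, hB⟩ x _
    exact Q_bdd hB x
  · intro h
    obtain ⟨m, x, c, hx, hP⟩ := hJ 0 (1 / 2) (by norm_num)
    refine bdd_of_pos hk x c (fun u h1 h2 => ?_) ?_
    · have h3 := hP u h1 h2
      have e : exp (-(I * ((0:ℝ) : ℂ) * (u : ℂ))) = 1 := by simp
      rw [e] at h3
      have h4 := (abs_le.1 ((Complex.abs_re_le_norm _).trans h3)).2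
      rw [sub_re, one_re] at h4
      linarith
    · choose B hB using fun j => h (x j) (hx j)
      refine ⟨∑ j, ‖c j‖ * B j, ?_⟩
      have hall : ∀ᶠ T : ℝ in atTop, ∀ j, ‖Qk k (x j) T‖ ≤ B j := eventually_all.2 hB
      filter_upwards [hall] with T hT
      refine (Complex.re_le_norm _).trans ((norm_sum_le _ _).trans (Finset.sum_le_sum fun j _ => ?_))
      rw [norm_mul]
      exact mul_le_mul_of_nonneg_left (hT j) (norm_nonneg _)

theorem exp_lip (y u u' : ℝ) : ‖exp (-(I * y * u)) - exp (-(I * y * u'))‖ ≤ |y| * |u - u'| := by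
  have h := PP_lip (fun _ : Fin 1 => y) (fun _ => (1:ℂ)) u u'
  simpa [PP] using h

/-- approximation extends to a neighbourhood -/
theorem near (hk : 1 ≤ k) (x : Fin m → ℝ) (c : Fin m → ℂ) (y : ℝ) {ε : ℝ} (hε : 0 < ε)
    (hP : ∀ u : ℝ, 2 ≤ u → u ≤ 2 * (k:ℝ) - 2 → ‖exp (-(I * y * u)) - PP x c u‖ ≤ ε / 2) :
    ∃ δ : ℝ, 0 < δ ∧ δ ≤ 1 ∧ ∀ u : ℝ, 2 - 3 * δ / 4 ≤ u → u ≤ 2 * (k:ℝ) - 2 + 3 * δ / 4 →
      ‖exp (-(I * y * u)) - PP x c u‖ ≤ ε := by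
  have hk' : (1:ℝ) ≤ k := by exact_mod_cast hk
  rcases Nat.lt_or_ge k 2 with h2 | h2
  · have hk1 : k = 1 := by omega
    refine ⟨1/2, by norm_num, by norm_num, ?_⟩
    intro u h3 h4
    rw [hk1] at h4
    norm_num at h4
    linarith
  · have hk2 : (2:ℝ) ≤ k := by exact_mod_cast h2
    set Λ : ℝ := |y| + ∑ j, ‖c j‖ * |x j| with hΛ
    have hΛ0 : 0 ≤ Λ := add_nonneg (abs_nonneg y) (Finset.sum_nonneg fun j _ => by positivity)
    refine ⟨min 1 (ε / (2 * (Λ + 1))), lt_min one_pos (by positivity), min_le_left _ _, ?_⟩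
    set δ := min 1 (ε / (2 * (Λ + 1))) with hδ
    have hδ0 : 0 < δ := lt_min one_pos (by positivity)
    have hδ2 : Λ * δ ≤ ε / 2 := by
      have : δ * (2 * (Λ + 1)) ≤ ε := by
        rw [← le_div_iff₀ (by positivity)]; exact min_le_right _ _
      nlinarith
    intro u h3 h4
    have key : ∀ v : ℝ, 2 ≤ v → v ≤ 2 * (k:ℝ) - 2 → |u - v| ≤ δ → ‖exp (-(I * y * u)) - PP x c u‖ ≤ ε := by
      intro v hv1 hv2 huv
      have h5 := hP v hv1 hv2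
      have h6 := PP_lip x c u v
      have h7 := exp_lip y u v
      have e : exp (-(I * y * u)) - PP x c u = (exp (-(I * y * u)) - exp (-(I * y * v))) +
        (exp (-(I * y * v)) - PP x c v) + (PP x c v - PP x c u) := by ring
      have h8 : Λ * |u - v| ≤ Λ * δ := by gcongr
      rw [e]
      refine norm_add₃_le.trans ?_
      rw [norm_sub_rev (PP x c v)]
      have h9 : Λ * |u - v| = |y| * |u - v| + (∑ j, ‖c j‖ * |x j|) * |u - v| := by rw [hΛ]; ring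
      linarith
    rcases lt_or_ge u 2 with h5 | h5
    · exact key 2 le_rfl (by linarith) (by rw [abs_le]; constructor <;> linarith)
    · rcases le_or_gt u (2 * (k:ℝ) - 2) with h6 | h6
      · exact key u h5 h6 (by simp [hδ0.le])
      · exact key (2 * (k:ℝ) - 2) (by linarith) le_rfl (by rw [abs_le]; constructor <;> linarith)

theorem PP_smooth (x : Fin m → ℝ) (c : Fin m → ℂ) : ContDiff ℝ ∞ (PP x c) := by
  unfold PP
  have h1 : ContDiff ℝ ∞ fun u : ℝ => (u : ℂ) := Complex.ofRealCLM.contDiff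
  refine ContDiff.sum fun j _ => contDiff_const.mul ?_
  exact ((contDiff_const.mul h1).neg).cexp

theorem exp_smooth (y : ℝ) : ContDiff ℝ ∞ fun u : ℝ => exp (-(I * y * u)) := by
  have h1 : ContDiff ℝ ∞ fun u : ℝ => (u : ℂ) := Complex.ofRealCLM.contDiff
  exact ((contDiff_const.mul h1).neg).cexp

theorem pl_TF (k : ℕ) : TF (fun u => ((pl k u : ℝ) : ℂ)) (-1) (2 * k + 1) := by
  have h0 : (fun u => ((pl k u : ℝ) : ℂ)) = gal k 0 := funext fun u => (pl_eq k u).1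
  rw [h0]; exact gal_TF k 0

/-- the part of the difference off the middle range -/
noncomputable def gp (k : ℕ) (x : Fin m → ℝ) (c : Fin m → ℂ) (y δ : ℝ) (u : ℝ) : ℂ :=
  (exp (-(I * y * u)) - PP x c u) * ((1 - ((rhoM k δ u : ℝ) : ℂ)) * ((pl k u : ℝ) : ℂ))

theorem gp_TF (x : Fin m → ℝ) (c : Fin m → ℂ) (y δ : ℝ) : TF (gp k x c y δ) (-1) (2 * k + 1) := by
  refine ⟨?_, ?_⟩
  · exact ((exp_smooth y).sub (PP_smooth x c)).mul
      ((contDiff_const.sub (rhoM_smooth k δ)).mul (pl_TF k).smooth)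
  · refine closure_minimal ?_ isClosed_Icc
    intro u hu
    by_contra hcon
    apply hu
    have a0 : ((pl k u : ℝ) : ℂ) = 0 :=
      image_eq_zero_of_notMem_tsupport (f := fun u => ((pl k u : ℝ) : ℂ)) fun h => hcon ((pl_TF k).supp h)
    unfold gp
    rw [a0, mul_zero, mul_zero]

theorem gp_supp (x : Fin m → ℝ) (c : Fin m → ℂ) (y : ℝ) {δ : ℝ} (hδ : 0 < δ) :
    ∀ u ∈ tsupport (gp k x c y δ), u < 2 ∨ 2 * (k:ℝ) - 2 < u := by
  intro u hu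
  by_contra hcon
  rw [not_or, not_lt, not_lt] at hcon
  have hz : gp k x c y δ =ᶠ[𝓝 u] 0 := by
    filter_upwards [(lt_mem_nhds (show 2 - δ / 2 < u by linarith)),
      (gt_mem_nhds (show u < 2 * (k:ℝ) - 2 + δ / 2 by linarith))] with v h1 h2
    simp only [gp, Pi.zero_apply]
    rw [rhoM_one hδ h1.le h2.le]
    simp
  exact notMem_tsupport_iff_eventuallyEq.2 hz hu

theorem gp_diff (x : Fin m → ℝ) (c : Fin m → ℂ) (y : ℝ) {δ ε : ℝ} (hδ : 0 < δ) (hε : 0 ≤ ε)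
    (hP : ∀ u : ℝ, 2 - 3 * δ / 4 ≤ u → u ≤ 2 * (k:ℝ) - 2 + 3 * δ / 4 →
      ‖exp (-(I * y * u)) - PP x c u‖ ≤ ε) (u : ℝ) :
    ‖exp (-(I * y * u)) - PP x c u - gp k x c y δ u‖ ≤ ε + (1 + ∑ j, ‖c j‖) * (1 - pl k u) := by
  have hr := rho_range k δ u
  have hp := (pl_eq k u).2
  have e : exp (-(I * y * u)) - PP x c u - gp k x c y δ u = (exp (-(I * y * u)) - PP x c u) *
      ((1 - (1 - rhoM k δ u) * pl k u : ℝ) : ℂ) := by
    unfold gp; push_cast; ring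
  have h0 : 0 ≤ 1 - (1 - rhoM k δ u) * pl k u := by nlinarith
  rw [e, norm_mul, Complex.norm_real, Real.norm_of_nonneg h0]
  set h := ‖exp (-(I * y * u)) - PP x c u‖ with hh
  have hh0 : 0 ≤ h := norm_nonneg _
  have hS : h ≤ 1 + ∑ j, ‖c j‖ := by
    refine (norm_sub_le _ _).trans ?_
    have h1 : ‖exp (-(I * y * u))‖ = 1 := by
      rw [show (-(I * y * u) : ℂ) = ((-(y * u) : ℝ) : ℂ) * I by push_cast; ring, norm_exp_ofReal_mul_I]
    have h2 := PP_norm x c u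
    rw [h1]
    linarith
  have h1 : h * rhoM k δ u ≤ ε := by
    by_cases hz : rhoM k δ u = 0
    · rw [hz, mul_zero]; exact hε
    · have h2 := rhoM_ne hδ hz
      have h3 := hP u h2.1 h2.2
      calc h * rhoM k δ u ≤ ε * 1 := mul_le_mul h3 hr.2 hr.1 hε
        _ = ε := mul_one ε
  have h2 : h * (1 - pl k u) ≤ (1 + ∑ j, ‖c j‖) * (1 - pl k u) :=
    mul_le_mul_of_nonneg_right hS (by linarith)
  have h3 : h * rhoM k δ u * pl k u ≤ h * rhoM k δ u := mul_le_of_le_one_right (mul_nonneg hh0 hr.1) hp.2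
  nlinarith

/-- approximation by shifts in `J` along a filter with small edges -/
theorem approx_l (hk : 1 ≤ k) {l : Filter ℝ} (hl : l ≤ atTop) (hE : Tendsto (Eg k) l (𝓝 0)) {B : ℝ}
    (hB : ∀ᶠ T : ℝ in l, Jn k T ≤ B) {J : Set ℝ} (hJ : Det k J) (y : ℝ) {ε : ℝ} (hε : 0 < ε) :
    ∃ (m : ℕ) (x : Fin m → ℝ) (c : Fin m → ℂ) (g : ℝ → ℂ), (∀ j, x j ∈ J) ∧ TF g (-1) (2 * k + 1) ∧
      (∀ u ∈ tsupport g, u < 2 ∨ 2 * (k:ℝ) - 2 < u) ∧
      (∀ u : ℝ, 0 ≤ u → u ≤ 2 * (k:ℝ) → ‖exp (-(I * y * u)) - PP x c u - g u‖ ≤ ε) ∧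
      ∀ᶠ T : ℝ in l, ‖Qk k y T - (∑ j, c j * Qk k (x j) T) -
        (2 * Real.pi : ℂ)⁻¹ * ∫ α : ℝ, G g (α * I) * Qk k α T‖ ≤ ε * (B + 1) := by
  obtain ⟨m, x, c, hx, hP0⟩ := hJ y (ε / 2) (by positivity)
  obtain ⟨δ, hδ, hδ1, hP⟩ := near hk x c y hε hP0
  have hD := gp_diff (k := k) x c y hδ hε.le hP
  set g := gp k x c y δ with hg
  have tg : TF g (-1) (2 * k + 1) := gp_TF x c y δ
  refine ⟨m, x, c, g, hx, tg, gp_supp x c y hδ, fun u h1 h2 => ?_, ?_⟩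
  · have h3 := hD u
    have h4 : pl k u = 1 := by
      unfold pl; rw [g00_one k h1 h2]; simp
    rw [h4, sub_self, mul_zero, add_zero] at h3
    exact h3
  have tp := pl_TF k
  set S : ℝ := 1 + ∑ j, ‖c j‖ with hS
  have hS0 : 0 ≤ S := by
    have : 0 ≤ ∑ j, ‖c j‖ := Finset.sum_nonneg fun j _ => norm_nonneg _
    linarith
  obtain ⟨D, C1, hD0, hC1, hoff⟩ := off_RT tp k
  obtain ⟨D3, C3, hD3, hC3, hgg⟩ := QR_int tg k
  obtain ⟨M, C2, hC2, hQR⟩ := QR_bound k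
  have hsc : Tendsto (fun T => (sc k T)⁻¹) l (𝓝 0) := (tendsto_inv_atTop_zero.comp (sc_atTop k)).mono_left hl
  -- the total error
  have herr : Tendsto (fun T : ℝ => S * ((Jn k T - (2 * Real.pi)⁻¹ *
      (∫ α : ℝ, G (fun u => ((pl k u : ℝ) : ℂ)) (α * I) * Qk k α T).re) + D * (Eg k T + C1 * (sc k T)⁻¹)) +
      ((1 + |y|) ^ M + ∑ j, ‖c j‖ * (1 + |x j|) ^ M) * (Eg k T + C2 * (sc k T)⁻¹) +
      (2 * Real.pi)⁻¹ * (D3 * (Eg k T + C3 * (sc k T)⁻¹))) l (𝓝 0) := by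
    have h1 := (off_pl k).mono_left hl
    have h2 := (hE.add (hsc.const_mul C1)).const_mul D
    have h3 := (hE.add (hsc.const_mul C2)).const_mul ((1 + |y|) ^ M + ∑ j, ‖c j‖ * (1 + |x j|) ^ M)
    have h5 := ((hE.add (hsc.const_mul C3)).const_mul D3).const_mul (2 * Real.pi)⁻¹
    have h4 := (((h1.add h2).const_mul S).add h3).add h5
    simpa using h4
  filter_upwards [hB, hl (eventually_ge_atTop (Real.exp 1)), herr.eventually (gt_mem_nhds hε)]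
    with T h1 hT h2
  have hexp1 : (2:ℝ) ≤ Real.exp 1 := by have := Real.add_one_le_exp (1:ℝ); linarith
  have a1 := approx_ineq2 (k := k) x c y tp tg hD (T := T) (by linarith)
  have a2 := hoff T hT
  have a3 := hQR T hT y
  have a4 : ‖(∑ j, c j * RT k (x j) T) - ∑ j, c j * Qk k (x j) T‖ ≤
      (∑ j, ‖c j‖ * (1 + |x j|) ^ M) * (Eg k T + C2 * (sc k T)⁻¹) := by
    rw [← Finset.sum_sub_distrib, Finset.sum_mul]
    refine (norm_sum_le _ _).trans (Finset.sum_le_sum fun j _ => ?_)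
    rw [← mul_sub, norm_mul, mul_assoc ‖c j‖, norm_sub_rev]
    refine mul_le_mul_of_nonneg_left ?_ (norm_nonneg _)
    rw [mul_comm]
    exact hQR T hT (x j)
  have a8 : ‖(2 * Real.pi : ℂ)⁻¹ * (∫ α : ℝ, G g (α * I) * RT k α T) -
      (2 * Real.pi : ℂ)⁻¹ * ∫ α : ℝ, G g (α * I) * Qk k α T‖ ≤
      (2 * Real.pi)⁻¹ * (D3 * (Eg k T + C3 * (sc k T)⁻¹)) := by
    rw [← mul_sub, norm_mul, norm_sub_rev]
    have e : ‖(2 * Real.pi : ℂ)⁻¹‖ = (2 * Real.pi)⁻¹ := by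
      rw [norm_inv, norm_mul, Complex.norm_real, Complex.norm_ofNat, Real.norm_of_nonneg Real.pi_pos.le]
    rw [e]
    exact mul_le_mul_of_nonneg_left (hgg T hT) (by positivity)
  have a5 : ‖Qk k y T - (∑ j, c j * Qk k (x j) T) -
        (2 * Real.pi : ℂ)⁻¹ * ∫ α : ℝ, G g (α * I) * Qk k α T‖ ≤ ‖Qk k y T - RT k y T‖ +
      ‖RT k y T - (∑ j, c j * RT k (x j) T) - (2 * Real.pi : ℂ)⁻¹ * ∫ β : ℝ, G g (β * I) * RT k β T‖ +
      ‖(∑ j, c j * RT k (x j) T) - ∑ j, c j * Qk k (x j) T‖ +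
      ‖(2 * Real.pi : ℂ)⁻¹ * (∫ α : ℝ, G g (α * I) * RT k α T) -
      (2 * Real.pi : ℂ)⁻¹ * ∫ α : ℝ, G g (α * I) * Qk k α T‖ := by
    have e : Qk k y T - (∑ j, c j * Qk k (x j) T) -
        (2 * Real.pi : ℂ)⁻¹ * (∫ α : ℝ, G g (α * I) * Qk k α T) = (Qk k y T - RT k y T) +
      (RT k y T - (∑ j, c j * RT k (x j) T) - (2 * Real.pi : ℂ)⁻¹ * ∫ β : ℝ, G g (β * I) * RT k β T) +
      ((∑ j, c j * RT k (x j) T) - ∑ j, c j * Qk k (x j) T) +
      ((2 * Real.pi : ℂ)⁻¹ * (∫ α : ℝ, G g (α * I) * RT k α T) -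
      (2 * Real.pi : ℂ)⁻¹ * ∫ α : ℝ, G g (α * I) * Qk k α T) := by ring
    rw [e]
    exact norm_add₄_le
  have a6 := mul_le_mul_of_nonneg_left a2 hS0
  have a7 : ε * Jn k T ≤ ε * B := by gcongr
  rw [mul_comm] at a3
  linarith

/-- convergence along a filter with small edges -/
theorem conv_l (hk : 1 ≤ k) {l : Filter ℝ} [l.NeBot] (hl : l ≤ atTop) (hE : Tendsto (Eg k) l (𝓝 0)) {B : ℝ}
    (hB0 : 0 ≤ B) (hB : ∀ᶠ T : ℝ in l, Jn k T ≤ B) {J : Set ℝ} (hD : Det k J)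
    (hJ : ∀ x ∈ J, ∃ z : ℂ, Tendsto (fun T => Qk k x T) l (𝓝 z)) (y : ℝ) :
    ∃ z : ℂ, Tendsto (fun T => Qk k y T) l (𝓝 z) := by
  refine cauchy_map_iff_exists_tendsto.1 ?_
  rw [Metric.cauchy_iff]
  refine ⟨inferInstance, fun ε hε => ?_⟩
  set e := ε / (8 * (B + 1)) with he
  have he0 : 0 < e := by positivity
  obtain ⟨m, x, c, g, hx, tg, hs, -, hT⟩ := approx_l hk hl hE hB hD y he0
  choose z hz using fun j => hJ (x j) (hx j)
  obtain ⟨ℓ, hℓ⟩ := main0 hk tg.smooth tg.hcs hs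
  have hlim : Tendsto (fun T : ℝ => (∑ j, c j * Qk k (x j) T) +
      (2 * Real.pi : ℂ)⁻¹ * ∫ α : ℝ, G g (α * I) * Qk k α T) l
      (𝓝 ((∑ j, c j * z j) + (2 * Real.pi : ℂ)⁻¹ * ℓ)) :=
    (tendsto_finsetSum _ fun j _ => (hz j).const_mul (c j)).add ((hℓ.mono_left hl).const_mul _)
  set w : ℂ := (∑ j, c j * z j) + (2 * Real.pi : ℂ)⁻¹ * ℓ with hw
  have hev : ∀ᶠ T : ℝ in l, Qk k y T ∈ Metric.ball w (ε / 2) := by
    filter_upwards [hT, (Metric.tendsto_nhds.1 hlim) (ε / 4) (by positivity)] with T h1 h3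
    rw [Metric.mem_ball, dist_eq_norm]
    rw [dist_eq_norm] at h3
    rw [sub_sub] at h1
    have h4 : ‖Qk k y T - w‖ ≤ ‖Qk k y T - ((∑ j, c j * Qk k (x j) T) +
        (2 * Real.pi : ℂ)⁻¹ * ∫ α : ℝ, G g (α * I) * Qk k α T)‖ +
        ‖((∑ j, c j * Qk k (x j) T) +
        (2 * Real.pi : ℂ)⁻¹ * ∫ α : ℝ, G g (α * I) * Qk k α T) - w‖ :=
      norm_sub_le_norm_sub_add_norm_sub _ _ _
    have h5 : e * (B + 1) = ε / 8 := by rw [he]; field_simp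
    linarith
  refine ⟨_, hev, fun a ha b hb => ?_⟩
  have a1 : dist a w < ε / 2 := ha
  have a2 : dist b w < ε / 2 := hb
  have a3 := dist_triangle_right a b w
  linarith

end RGX
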