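import Pool.Agent.Lib.MP_069854_nt.RG.RGE

namespace RGX
open MP069854
open Filter Topology Complex Set MeasureTheory Matrix
open scoped ComplexConjugate ContDiff

variable {k m : ℕ}

/-- heights with small edges -/
def Gd (k : ℕ) : Set ℝ := {T | Eg k T ≤ (Real.sqrt (Real.sqrt T))⁻¹}

theorem Gd_dense {B : ℝ} (hB : ∀ᶠ T : ℝ in atTop, Jn k T ≤ B) {δ : ℝ} (hδ0 : 0 < δ) (hδ1 : δ ≤ 1 / 2) :
    ∀ᶠ T : ℝ in atTop, ∃ T' ∈ Gd k, (1 - δ) * T ≤ T' ∧ T' ≤ T := by
  obtain ⟨C, hC, hg⟩ := good_point k hδ0 hδ1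
  have hs : Tendsto (fun T : ℝ => Real.sqrt (Real.sqrt T)) atTop atTop :=
    Real.tendsto_sqrt_atTop.comp Real.tendsto_sqrt_atTop
  filter_upwards [hg, hB, hs.eventually (eventually_ge_atTop (C * |B|)), eventually_gt_atTop (2:ℝ)]
    with T h1 h2 h3 hT
  obtain ⟨T', a1, a2, a3⟩ := h1
  refine ⟨T', ?_, a1, a2⟩
  have hT' : 0 < T' := by nlinarith
  have r1 : 0 < Real.sqrt T := Real.sqrt_pos.2 (by linarith)
  have r2 : 0 < Real.sqrt (Real.sqrt T) := Real.sqrt_pos.2 r1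
  have r3 : 0 < Real.sqrt (Real.sqrt T') := Real.sqrt_pos.2 (Real.sqrt_pos.2 hT')
  show Eg k T' ≤ _
  have e1 : C * (Jn k T * (Real.sqrt T)⁻¹) ≤ C * (|B| * (Real.sqrt T)⁻¹) := by
    have := h2.trans (le_abs_self B)
    gcongr
  have e2 : C * (|B| * (Real.sqrt T)⁻¹) ≤ (Real.sqrt (Real.sqrt T))⁻¹ := by
    have e3 : (Real.sqrt T) = Real.sqrt (Real.sqrt T) * Real.sqrt (Real.sqrt T) :=
      (Real.mul_self_sqrt r1.le).symm
    rw [← mul_assoc, ← div_eq_mul_inv, div_le_iff₀ r1]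
    calc C * |B| ≤ Real.sqrt (Real.sqrt T) := h3
      _ = (Real.sqrt (Real.sqrt T))⁻¹ * Real.sqrt T := by
          nth_rewrite 3 [e3]
          field_simp
  have e4 : (Real.sqrt (Real.sqrt T))⁻¹ ≤ (Real.sqrt (Real.sqrt T'))⁻¹ :=
    inv_anti₀ r3 (Real.sqrt_le_sqrt (Real.sqrt_le_sqrt a2))
  linarith

/-- the filter of good heights -/
def gf (k : ℕ) : Filter ℝ := atTop ⊓ 𝓟 (Gd k)

theorem gf_le (k : ℕ) : gf k ≤ atTop := inf_le_left

theorem gf_mem (k : ℕ) : ∀ᶠ T in gf k, T ∈ Gd k := mem_inf_of_right (mem_principal_self _)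

theorem gf_ev {P : ℝ → Prop} (h : ∀ᶠ T in gf k, P T) : ∃ T0 : ℝ, ∀ T, T0 ≤ T → T ∈ Gd k → P T := by
  have := eventually_inf_principal.1 h
  obtain ⟨T0, hT0⟩ := eventually_atTop.1 this
  exact ⟨T0, hT0⟩

theorem gf_neBot {B : ℝ} (hB : ∀ᶠ T : ℝ in atTop, Jn k T ≤ B) : (gf k).NeBot := by
  rw [gf, inf_neBot_iff]
  intro s hs s' hs'
  obtain ⟨T0, hT0⟩ := mem_atTop_sets.1 hs
  obtain ⟨T, h1, h2⟩ := ((Gd_dense hB (δ := 1 / 2) (by norm_num) le_rfl).and
    (eventually_ge_atTop (2 * |T0|))).exists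
  obtain ⟨T', b1, b2, b3⟩ := h1
  exact ⟨T', hT0 T' (by linarith [le_abs_self T0]), hs' b1⟩

theorem gf_Eg (k : ℕ) : Tendsto (Eg k) (gf k) (𝓝 0) := by
  have hs : Tendsto (fun T : ℝ => (Real.sqrt (Real.sqrt T))⁻¹) (gf k) (𝓝 0) :=
    (tendsto_inv_atTop_zero.comp (Real.tendsto_sqrt_atTop.comp Real.tendsto_sqrt_atTop)).mono_left (gf_le k)
  refine squeeze_zero' ?_ ?_ hs
  · exact gf_le k ((eventually_ge_atTop (Real.exp 1)).mono fun T hT => Eg_nonneg k hT)
  · exact gf_mem k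

/-- **from good heights to all heights** -/
theorem gf_to_top {B q : ℝ} (hB : ∀ᶠ T : ℝ in atTop, Jn k T ≤ B) (h : Tendsto (Jn k) (gf k) (𝓝 q)) :
    Tendsto (Jn k) atTop (𝓝 q) := by
  have := gf_neBot hB
  have hq : 0 ≤ q := ge_of_tendsto h (gf_le k ((eventually_gt_atTop 1).mono fun T hT => Jn_nn k hT))
  rw [Metric.tendsto_nhds]
  intro ε hε
  have c1 : Tendsto (fun δ : ℝ => (1 - δ) / (1 + δ) * (q - δ)) (𝓝 0) (𝓝 q) := by
    have : ContinuousAt (fun δ : ℝ => (1 - δ) / (1 + δ) * (q - δ)) 0 := by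
      refine ContinuousAt.mul (ContinuousAt.div (by fun_prop) (by fun_prop) (by norm_num)) (by fun_prop)
    have h2 := this.tendsto
    simpa using h2
  have c2 : Tendsto (fun δ : ℝ => (1 + δ) / (1 - δ) * (q + δ)) (𝓝 0) (𝓝 q) := by
    have : ContinuousAt (fun δ : ℝ => (1 + δ) / (1 - δ) * (q + δ)) 0 := by
      refine ContinuousAt.mul (ContinuousAt.div (by fun_prop) (by fun_prop) (by norm_num)) (by fun_prop)
    have h2 := this.tendsto
    simpa using h2
  have e1 := c1.eventually (lt_mem_nhds (show q - ε < q by linarith))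
  have e2 := c2.eventually (gt_mem_nhds (show q < q + ε by linarith))
  have e3 : ∀ᶠ δ : ℝ in 𝓝[>] 0, δ ∈ Ioo (0:ℝ) (1/2) := Ioo_mem_nhdsGT (by norm_num)
  obtain ⟨δ, ⟨d1, d2⟩, d3⟩ := (((e1.and e2).filter_mono nhdsWithin_le_nhds).and e3).exists
  obtain ⟨δ0, δ1⟩ := d3
  have hδ := (Metric.tendsto_nhds.1 h) δ δ0
  obtain ⟨T0, hT0⟩ := gf_ev hδ
  have hden := Gd_dense hB δ0 δ1.le
  have hlr := (log_ratio (k ^ 2) (δ := δ) (by linarith)).eventually (gt_mem_nhds (show (1:ℝ) < 1 + δ by linarith))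
  have hdiv : Tendsto (fun T : ℝ => T / (1 - δ)) atTop atTop :=
    tendsto_id.atTop_div_const (by linarith)
  filter_upwards [hden, hdiv.eventually hden, hlr, hdiv.eventually hlr, eventually_ge_atTop (2 * |T0|),
    eventually_gt_atTop (4:ℝ)] with T a1 a2 a3 a4 a5 a6
  have hT0' : T0 ≤ T / 2 := by linarith [le_abs_self T0]
  have hd := den_pos k (T := T) (by linarith)
  have hLT := Real.log_pos (show 1 < T by linarith)
  rw [Real.dist_eq, abs_lt]
  constructor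
  · -- lower bound
    obtain ⟨T', b1, b2, b3⟩ := a1
    have hT' : T0 ≤ T' := by nlinarith
    have b4 := hT0 T' hT' b1
    rw [Real.dist_eq, abs_lt] at b4
    have hT1 : 1 < T' := by nlinarith
    have hd' := den_pos k hT1
    have hL' := Real.log_pos hT1
    have h6 : 1 < (1 - δ) * T := by nlinarith
    have h7 := Real.log_pos h6
    have h8 : Real.log ((1 - δ) * T) ≤ Real.log T' := Real.log_le_log (by linarith) b2
    have h9 : (Real.log T / Real.log T') ^ (k ^ 2) ≤ 1 + δ := by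
      refine (pow_le_pow_left₀ (by positivity) ?_ _).trans a3.le
      gcongr
    have h10 : T / T' ≤ 1 / (1 - δ) := by
      rw [div_le_div_iff₀ (by linarith) (by linarith)]
      linarith
    have h11 : den k T / den k T' ≤ (1 + δ) / (1 - δ) := by
      unfold den
      calc T * Real.log T ^ (k ^ 2) / (T' * Real.log T' ^ (k ^ 2)) =
          (T / T') * (Real.log T / Real.log T') ^ (k ^ 2) := by rw [div_pow]; field_simp
        _ ≤ 1 / (1 - δ) * (1 + δ) := mul_le_mul h10 h9 (by positivity) (div_nonneg (by norm_num) (by linarith))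
        _ = _ := by ring
    have h12 : (1 - δ) / (1 + δ) ≤ den k T' / den k T := by
      have := inv_anti₀ (by positivity) h11
      rwa [inv_div, inv_div] at this
    have hJ' := Jn_nn k hT1
    have h13 : den k T' / den k T * Jn k T' ≤ Jn k T := by
      rw [div_mul_eq_mul_div, ← I2_eq k hT1, div_le_iff₀ hd, mul_comm, ← I2_eq k (by linarith)]
      exact I2_mono k b3
    have h14 : (1 - δ) / (1 + δ) * (q - δ) ≤ Jn k T := by
      refine le_trans ?_ h13
      calc (1 - δ) / (1 + δ) * (q - δ) ≤ (1 - δ) / (1 + δ) * Jn k T' := by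
            have : 0 ≤ (1 - δ) / (1 + δ) := div_nonneg (by linarith) (by linarith)
            have : q - δ ≤ Jn k T' := by linarith [b4.1]
            gcongr
        _ ≤ _ := by gcongr
    linarith
  · -- upper bound
    obtain ⟨T', b1, b2, b3⟩ := a2
    have h1δ : 0 < 1 - δ := by linarith
    have b2' : T ≤ T' := by
      rwa [mul_div_cancel₀ _ h1δ.ne'] at b2
    have hT' : T0 ≤ T' := by linarith
    have b4 := hT0 T' hT' b1
    rw [Real.dist_eq, abs_lt] at b4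
    have hT1 : 1 < T' := by linarith
    have hd' := den_pos k hT1
    have hL' := Real.log_pos hT1
    rw [mul_div_cancel₀ _ h1δ.ne'] at a4
    have h8 : Real.log T' ≤ Real.log (T / (1 - δ)) := Real.log_le_log (by linarith) b3
    have h9 : (Real.log T' / Real.log T) ^ (k ^ 2) ≤ 1 + δ := by
      refine (pow_le_pow_left₀ (by positivity) ?_ _).trans a4.le
      gcongr
    have h10 : T' / T ≤ 1 / (1 - δ) := by
      rw [div_le_div_iff₀ (by linarith) (by linarith)]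
      rw [le_div_iff₀ h1δ] at b3
      linarith
    have h11 : den k T' / den k T ≤ (1 + δ) / (1 - δ) := by
      unfold den
      calc T' * Real.log T' ^ (k ^ 2) / (T * Real.log T ^ (k ^ 2)) =
          (T' / T) * (Real.log T' / Real.log T) ^ (k ^ 2) := by rw [div_pow]; field_simp
        _ ≤ 1 / (1 - δ) * (1 + δ) := mul_le_mul h10 h9 (by positivity) (div_nonneg (by norm_num) (by linarith))
        _ = _ := by ring
    have hJ' := Jn_nn k hT1
    have h13 : Jn k T ≤ den k T' / den k T * Jn k T' := by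
      rw [div_mul_eq_mul_div, ← I2_eq k hT1, le_div_iff₀ hd, mul_comm, ← I2_eq k (by linarith)]
      exact I2_mono k b2'
    have h14 : Jn k T ≤ (1 + δ) / (1 - δ) * (q + δ) := by
      refine h13.trans ?_
      have : 0 ≤ (1 + δ) / (1 - δ) := div_nonneg (by linarith) (by linarith)
      have : Jn k T' ≤ q + δ := by linarith [b4.2]
      gcongr
    linarith

/-- scaling -/
theorem scale {q : ℝ} (hJ : Tendsto (Jn k) atTop (𝓝 q)) {c : ℝ} (hc : 0 < c) :
    Tendsto (fun T : ℝ => (den k T)⁻¹ * I2 k (c * T)) atTop (𝓝 (c * q)) := by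
  have h1 : Tendsto (fun T : ℝ => c * T) atTop atTop := tendsto_id.const_mul_atTop hc
  have h3 : Tendsto (fun T : ℝ => c * (1 + Real.log c * (Real.log T)⁻¹) ^ (k ^ 2)) atTop (𝓝 c) := by
    have h4 : Tendsto (fun T : ℝ => 1 + Real.log c * (Real.log T)⁻¹) atTop (𝓝 1) := by
      have := ((tendsto_inv_atTop_zero.comp Real.tendsto_log_atTop).const_mul
        (Real.log c)).const_add 1
      rwa [mul_zero, add_zero] at this
    have h5 := (h4.pow (k ^ 2)).const_mul c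
    rwa [one_pow, mul_one] at h5
  have h6 := h3.mul (hJ.comp h1)
  refine h6.congr' ?_
  filter_upwards [eventually_gt_atTop (1:ℝ), h1.eventually (eventually_gt_atTop 1)] with T hT hcT
  have hL := Real.log_pos hT
  have hL2 := Real.log_pos hcT
  have hT0 : 0 < T := by linarith
  simp only [Function.comp]
  rw [I2_eq k hcT, ← mul_assoc]
  congr 1
  unfold den
  have e1 : 1 + Real.log c * (Real.log T)⁻¹ = Real.log (c * T) / Real.log T := by
    rw [Real.log_mul hc.ne' hT0.ne']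
    field_simp
    ring
  rw [e1, div_pow]
  field_simp

/-- the edges are small once the moment converges -/
theorem Eg_zero {q : ℝ} (hJ : Tendsto (Jn k) atTop (𝓝 q)) : Tendsto (Eg k) atTop (𝓝 0) := by
  rw [Metric.tendsto_nhds]
  intro ε hε
  set δ : ℝ := min (1/2) (ε / (4 * (|q| + 1))) with hδ
  have hδ0 : 0 < δ := lt_min (by norm_num) (by positivity)
  have hδ1 : δ ≤ 1/2 := min_le_left _ _
  have hδ2 : δ * (4 * (|q| + 1)) ≤ ε := by
    rw [← le_div_iff₀ (by positivity)]; exact min_le_right _ _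
  have h1 := (scale hJ (show 0 < 1 + δ by linarith)).sub (scale hJ (show 0 < 1 - δ by linarith))
  have hlim : (1 + δ) * q - (1 - δ) * q < ε := by
    have h2 : (1 + δ) * q - (1 - δ) * q = 2 * δ * q := by ring
    rw [h2]
    have h3 : 2 * δ * q ≤ 2 * δ * |q| := by
      have := le_abs_self q
      gcongr
    nlinarith [abs_nonneg q]
  have hsc : ∀ᶠ T : ℝ in atTop, 2 * sc k T ≤ δ * T := by
    filter_upwards [(sc_atTop k).eventually (eventually_ge_atTop (2 / δ)), eventually_ge_atTop (1:ℝ)]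
      with T a1 a2
    have b1 := sc_one_le k a2
    have b2 := sc_four k a2
    have b3 : 2 ≤ δ * sc k T := by
      have := mul_le_mul_of_nonneg_left a1 hδ0.le
      rwa [mul_div_cancel₀ _ hδ0.ne'] at this
    have b4 : sc k T ^ 2 ≤ T := by
      refine le_trans ?_ b2
      exact pow_le_pow_right₀ b1 (by norm_num)
    nlinarith
  filter_upwards [h1.eventually (gt_mem_nhds hlim), hsc, eventually_ge_atTop (Real.exp 1)] with T a1 a2 hT
  have hexp1 : (2:ℝ) ≤ Real.exp 1 := by have := Real.add_one_le_exp (1:ℝ); linarith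
  have hE := Eg_nonneg k hT
  have hd := den_pos k (T := T) (by linarith)
  have hs0 := sc_nonneg k (T := T) (by linarith)
  have b1 := I2_mono k (show T + sc k T ≤ (1 + δ) * T by linarith)
  have b2 := I2_mono k (show (1 - δ) * T ≤ T - 2 * sc k T by linarith)
  rw [Real.dist_eq, sub_zero, abs_of_nonneg hE]
  refine lt_of_le_of_lt ?_ a1
  unfold Eg
  rw [← mul_sub]
  gcongr

/-- boundedness from convergence on `J` -/
theorem bdd_of_conv (hk : 1 ≤ k) {J : Set ℝ} (hD : Det k J)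
    (hJ : ∀ x ∈ J, ∃ z : ℂ, Tendsto (fun T => Qk k x T) atTop (𝓝 z)) :
    ∃ B : ℝ, 0 ≤ B ∧ ∀ᶠ T : ℝ in atTop, Jn k T ≤ B := by
  obtain ⟨B, hB⟩ := (bdd_iff hk hD).2 fun x hx => by
    obtain ⟨z, hz⟩ := hJ x hx
    exact ⟨‖z‖ + 1, (hz.norm.eventually (gt_mem_nhds (lt_add_one _))).mono fun T hT => hT.le⟩
  exact ⟨|B|, abs_nonneg B, hB.mono fun T hT => hT.trans (le_abs_self B)⟩

/-- the moment converges once the shifts in `J` do -/
theorem Jn_conv (hk : 1 ≤ k) {J : Set ℝ} (hD : Det k J)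
    (hJ : ∀ x ∈ J, ∃ z : ℂ, Tendsto (fun T => Qk k x T) atTop (𝓝 z)) :
    ∃ q : ℝ, Tendsto (Jn k) atTop (𝓝 q) := by
  obtain ⟨B, hB0, hB⟩ := bdd_of_conv hk hD hJ
  have := gf_neBot hB
  obtain ⟨z, hz⟩ := conv_l hk (gf_le k) (gf_Eg k) hB0 (gf_le k hB) hD
    (fun x hx => (hJ x hx).imp fun z hz => hz.mono_left (gf_le k)) 0
  refine ⟨z.re, gf_to_top hB ?_⟩
  refine ((Complex.continuous_re.tendsto _).comp hz).congr fun T => ?_
  simp only [Function.comp, Jn_Q, ofReal_re]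

/-- **convergence on `J` implies convergence everywhere** -/
theorem conv_all (hk : 1 ≤ k) {J : Set ℝ} (hD : Det k J)
    (hJ : ∀ x ∈ J, ∃ z : ℂ, Tendsto (fun T => Qk k x T) atTop (𝓝 z)) (y : ℝ) :
    ∃ z : ℂ, Tendsto (fun T => Qk k y T) atTop (𝓝 z) := by
  obtain ⟨B, hB0, hB⟩ := bdd_of_conv hk hD hJ
  obtain ⟨q, hq⟩ := Jn_conv hk hD hJ
  exact conv_l hk le_rfl (Eg_zero hq) hB0 hB hD hJ y

section
variable [∀ N, MeasurableSpace (unitaryGroup (Fin N) ℂ)] [∀ N, BorelSpace (unitaryGroup (Fin N) ℂ)]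
  (μ : ∀ N, Measure (unitaryGroup (Fin N) ℂ)) [∀ N, IsProbabilityMeasure (μ N)]
  [∀ N, (μ N).IsHaarMeasure]

theorem W_approx (x : Fin m → ℝ) (c : Fin m → ℂ) (y : ℝ) {ε : ℝ} {g : ℝ → ℂ} {A B : ℝ} (tg : TF g A B)
    (hP : ∀ u : ℝ, 0 ≤ u → u ≤ 2 * (k:ℝ) → ‖exp (-(I * y * u)) - PP x c u - g u‖ ≤ ε) {𝒲 : ℝ → ℂ}
    (h𝒲 : ∀ α : ℝ, Tendsto (fun N : ℕ => Wk (μ N) k α) atTop (𝓝 (𝒲 α))) :
    ‖𝒲 y - (∑ j, c j * 𝒲 (x j)) - (2 * Real.pi : ℂ)⁻¹ * ∫ α : ℝ, G g (α * I) * 𝒲 α‖ ≤ ε * ‖𝒲 0‖ := by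
  have l1 := (((h𝒲 y).sub (tendsto_finsetSum Finset.univ fun j _ => (h𝒲 (x j)).const_mul (c j))).sub
    (((W_dom μ tg h𝒲).2).const_mul (2 * Real.pi : ℂ)⁻¹)).norm
  have l2 := ((h𝒲 0).norm).const_mul ε
  refine le_of_tendsto_of_tendsto l1 l2 ?_
  filter_upwards [eventually_ge_atTop 1] with N hN
  have hN0 : (0:ℝ) < N := by exact_mod_cast hN
  have h0 : Wk (μ N) k 0 = ((∑ j ∈ Finset.range (k * N + 1), wN μ k j N : ℝ) : ℂ) := by
    rw [Wk_w]; simp
  rw [h0, Complex.norm_real, Real.norm_of_nonneg (Finset.sum_nonneg fun j _ => wN_nonneg μ k j N)]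
  have e1 : Wk (μ N) k y - (∑ j, c j * Wk (μ N) k (x j)) -
      (2 * Real.pi : ℂ)⁻¹ * ∫ α : ℝ, G g (α * I) * Wk (μ N) k α =
      ∑ i ∈ Finset.range (k * N + 1), (wN μ k i N : ℂ) *
        (exp (-(I * y * ((2 * i / N : ℝ) : ℂ))) - PP x c (2 * i / N) - g (2 * i / N)) := by
    have e2 : ∑ j, c j * Wk (μ N) k (x j) = ∑ i ∈ Finset.range (k * N + 1), (wN μ k i N : ℂ) *
        PP x c (2 * i / N) := by
      unfold PP
      simp_rw [Wk_w, Finset.mul_sum]
      rw [Finset.sum_comm]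
      refine Finset.sum_congr rfl fun i _ => Finset.sum_congr rfl fun j _ => ?_
      have : (-(((2 * i / N : ℝ) * x j : ℝ) : ℂ) * I) = -(I * x j * ((2 * i / N : ℝ) : ℂ)) := by
        push_cast; ring
      rw [← this]
      ring
    rw [e2, Wk_int_w μ tg, Wk_w, ← Finset.sum_sub_distrib, ← Finset.sum_sub_distrib]
    refine Finset.sum_congr rfl fun i _ => ?_
    have : (-(((2 * i / N : ℝ) * y : ℝ) : ℂ) * I) = -(I * y * ((2 * i / N : ℝ) : ℂ)) := by
      push_cast; ring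
    rw [this]
    ring
  rw [e1, Finset.mul_sum]
  refine (norm_sum_le _ _).trans (Finset.sum_le_sum fun i hi => ?_)
  rw [norm_mul, Complex.norm_real, Real.norm_of_nonneg (wN_nonneg μ k i N), mul_comm]
  refine mul_le_mul_of_nonneg_right (hP _ (by positivity) ?_) (wN_nonneg μ k i N)
  rw [Finset.mem_range] at hi
  have hi' : (i:ℝ) ≤ k * N := by
    have : i ≤ k * N := by omega
    exact_mod_cast this
  rw [div_le_iff₀ hN0]
  linarith

/-- **the prediction on `J` implies the prediction everywhere** -/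
theorem pred_all (hk : 1 ≤ k) {J : Set ℝ} (hJd : Det k J) {𝒲 : ℝ → ℂ}
    (h𝒲 : ∀ α : ℝ, Tendsto (fun N : ℕ => Wk (μ N) k α) atTop (𝓝 (𝒲 α)))
    (hJ : ∀ x ∈ J, Tendsto (fun T => Qk k x T) atTop (𝓝 (arith k * 𝒲 x))) (y : ℝ) :
    Tendsto (fun T => Qk k y T) atTop (𝓝 (arith k * 𝒲 y)) := by
  have hJ' : ∀ x ∈ J, ∃ z : ℂ, Tendsto (fun T => Qk k x T) atTop (𝓝 z) := fun x hx => ⟨_, hJ x hx⟩
  obtain ⟨B, hB0, hB⟩ := bdd_of_conv hk hJd hJ'
  obtain ⟨q, hq⟩ := Jn_conv hk hJd hJ'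
  obtain ⟨z, hz⟩ := conv_all hk hJd hJ' y
  suffices h : z = arith k * 𝒲 y by rwa [h] at hz
  have hA : 0 ≤ arith k := (zetaData hk).A_nonneg
  set D : ℝ := (B + 1) + arith k * ‖𝒲 0‖ with hD
  have hD0 : 0 < D := by positivity
  have key : ∀ ε : ℝ, 0 < ε → ‖z - arith k * 𝒲 y‖ ≤ ε * D := by
    intro ε hε
    obtain ⟨m, x, c, g, hx, tg, hs, hP, hT⟩ := approx_l hk le_rfl (Eg_zero hq) hB hJd y hε
    obtain ⟨ℓ, -, -, a3, -, a5⟩ := main hk tg.smooth tg.hcs hs μ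
    obtain ⟨-, a6⟩ := a5 𝒲 h𝒲
    have l1 := ((hz.sub (tendsto_finsetSum Finset.univ fun j _ => (hJ (x j) (hx j)).const_mul (c j))).sub
      (a3.const_mul (2 * Real.pi : ℂ)⁻¹)).norm
    have h1 := le_of_tendsto l1 hT
    have h2 := W_approx μ x c y tg hP h𝒲
    rw [a6] at h2
    set V : ℂ := (∑ j, c j * ((arith k : ℂ) * 𝒲 (x j))) + (2 * Real.pi : ℂ)⁻¹ * (arith k * ℓ) with hV
    have h3 : ‖V - arith k * 𝒲 y‖ ≤ arith k * (ε * ‖𝒲 0‖) := by
      have e : V - arith k * 𝒲 y =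
          -((arith k : ℂ) * (𝒲 y - (∑ j, c j * 𝒲 (x j)) - (2 * Real.pi : ℂ)⁻¹ * ℓ)) := by
        have e2 : ∑ j, c j * ((arith k : ℂ) * 𝒲 (x j)) = (arith k : ℂ) * ∑ j, c j * 𝒲 (x j) := by
          rw [Finset.mul_sum]
          refine Finset.sum_congr rfl fun j _ => ?_
          ring
        rw [hV, e2]; ring
      rw [e, norm_neg, norm_mul, Complex.norm_real, Real.norm_of_nonneg hA]
      exact mul_le_mul_of_nonneg_left h2 hA
    have h4 : ‖z - arith k * 𝒲 y‖ ≤ ‖z - V‖ + ‖V - arith k * 𝒲 y‖ :=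
      norm_sub_le_norm_sub_add_norm_sub _ _ _
    rw [sub_sub] at h1
    rw [hD]
    linarith
  by_contra hne
  have h0 : 0 < ‖z - arith k * 𝒲 y‖ := norm_pos_iff.2 (sub_ne_zero.2 hne)
  have h1 := key (‖z - arith k * 𝒲 y‖ / (2 * D)) (by positivity)
  have h2 : ‖z - arith k * 𝒲 y‖ / (2 * D) * D = ‖z - arith k * 𝒲 y‖ / 2 := by field_simp
  linarith

end
end RGX
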