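import Pool.Agent.Lib.MP_069854_nt.RG.RGA

namespace RGX
open MP069854
open Filter Topology Complex Set MeasureTheory
open scoped ComplexConjugate ContDiff

section dense
variable (a b : ℝ)

/-- the function `-i u` on `[a,b]` -/
noncomputable def gen : C(Icc a b, ℂ) := ⟨fun u => -(I * ((u : ℝ) : ℂ)), by fun_prop⟩

/-- `z ↦ e^{-izu}` -/
noncomputable def ph (z : ℂ) : C(Icc a b, ℂ) := NormedSpace.exp (z • gen a b)

theorem ph_apply (z : ℂ) (u : Icc a b) : ph a b z u = exp (-(I * z * ((u : ℝ) : ℂ))) := by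
  unfold ph
  have h1 := NormedSpace.map_exp (ContinuousMap.evalAlgHom ℂ ℂ u) (by exact continuous_eval_const u)
    (z • gen a b)
  have h2 : (ContinuousMap.evalAlgHom ℂ ℂ u) (NormedSpace.exp (z • gen a b)) =
    (NormedSpace.exp (z • gen a b)) u := rfl
  rw [← h2, h1, ← Complex.exp_eq_exp_ℂ]
  congr 1
  show (z • gen a b) u = _
  rw [ContinuousMap.smul_apply]
  unfold gen
  simp only [ContinuousMap.coe_mk, smul_eq_mul]
  ring

theorem ph_diff : Differentiable ℂ (ph a b) := by
  unfold ph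
  have h : Differentiable ℂ (NormedSpace.exp : C(Icc a b, ℂ) → C(Icc a b, ℂ)) := by
    intro x
    exact (NormedSpace.exp_analytic x).differentiableAt
  exact h.comp (by fun_prop)

/-- duality criterion -/
theorem dense_of {J : Set ℝ} {y : ℝ}
    (hann : ∀ f : StrongDual ℂ C(Icc a b, ℂ), (∀ x ∈ J, f (ph a b (x : ℂ)) = 0) → f (ph a b (y : ℂ)) = 0)
    {ε : ℝ} (hε : 0 < ε) :
    ∃ (m : ℕ) (x : Fin m → ℝ) (c : Fin m → ℂ), (∀ j, x j ∈ J) ∧ ∀ u : ℝ, a ≤ u → u ≤ b →
      ‖exp (-(I * y * u)) - PP x c u‖ ≤ ε := by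
  set S : Submodule ℂ C(Icc a b, ℂ) := Submodule.span ℂ ((fun x : ℝ => ph a b x) '' J) with hS
  have hmem : ph a b y ∈ closure (S : Set C(Icc a b, ℂ)) := by
    by_contra hcon
    have hconv : Convex ℝ (closure (S : Set C(Icc a b, ℂ))) := by
      exact (Submodule.convex (S.restrictScalars ℝ)).closure
    obtain ⟨f, u, h1, h2⟩ := RCLike.geometric_hahn_banach_closed_point (𝕜 := ℂ) hconv isClosed_closure hcon
    have hz : ∀ a ∈ S, f a = 0 := by
      intro a ha
      by_contra hne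
      have h3 : ∀ t : ℝ, t * ‖f a‖ ^ 2 < u := by
        intro t
        have h4 := h1 (((t : ℂ) * conj (f a)) • a) (subset_closure (S.smul_mem _ ha))
        rw [map_smul, smul_eq_mul, mul_assoc, mul_comm (conj (f a)), mul_conj, normSq_eq_norm_sq] at h4
        rw [← ofReal_mul] at h4
        exact h4
      have h5 : 0 < ‖f a‖ ^ 2 := by positivity
      have h6 := h3 (u / ‖f a‖ ^ 2)
      rw [div_mul_cancel₀ _ h5.ne'] at h6
      exact lt_irrefl _ h6
    have hu : 0 < u := by
      have := h1 0 (subset_closure S.zero_mem)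
      simpa using this
    have h7 : f (ph a b (y : ℂ)) = 0 := hann f fun x hx => hz _ (Submodule.subset_span ⟨x, hx, rfl⟩)
    rw [h7] at h2
    simp at h2
    linarith
  obtain ⟨s, hs, hd⟩ := Metric.mem_closure_iff.1 hmem ε hε
  obtain ⟨m, c, g, hsum⟩ := Submodule.mem_span_set'.1 hs
  choose x hx1 hx2 using fun j => (g j).2
  refine ⟨m, x, c, hx1, fun u hu0 hu6 => ?_⟩
  have h1 : (ph a b y - s) ⟨u, hu0, hu6⟩ = exp (-(I * y * u)) - PP x c u := by
    rw [ContinuousMap.sub_apply, ph_apply, ← hsum, ContinuousMap.sum_apply]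
    unfold PP
    congr 1
    refine Finset.sum_congr rfl fun j _ => ?_
    rw [ContinuousMap.smul_apply, smul_eq_mul, ← hx2 j]
    simp only [ph_apply]
  rw [← h1]
  refine (ContinuousMap.norm_coe_le_norm _ _).trans ?_
  rw [← dist_eq_norm]
  exact hd.le

/-- **Density**: exponentials with shifts in a set with an accumulation point. -/
theorem ann_acc {J : Set ℝ} {p : ℝ} (hp : AccPt p (𝓟 J)) (y : ℝ) (f : StrongDual ℂ C(Icc a b, ℂ))
    (hf : ∀ x ∈ J, f (ph a b (x : ℂ)) = 0) : f (ph a b (y : ℂ)) = 0 := by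
  have hg : Differentiable ℂ fun z : ℂ => f (ph a b z) := f.differentiable.comp (ph_diff a b)
  have hg0 : (fun z : ℂ => f (ph a b z)) = fun _ => 0 := by
    have ha : AnalyticOnNhd ℂ (fun z : ℂ => f (ph a b z)) univ := fun z _ => hg.analyticAt z
    have hb : AnalyticOnNhd ℂ (fun _ : ℂ => (0:ℂ)) univ := fun z _ => analyticAt_const
    refine AnalyticOnNhd.eq_of_frequently_eq (z₀ := (p : ℂ)) ha hb ?_
    rw [accPt_iff_frequently_nhdsNE] at hp
    have ht : Tendsto (fun x : ℝ => (x : ℂ)) (𝓝[≠] p) (𝓝[≠] (p : ℂ)) := by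
      refine tendsto_nhdsWithin_iff.2 ⟨(Complex.continuous_ofReal.tendsto p).mono_left nhdsWithin_le_nhds, ?_⟩
      filter_upwards [self_mem_nhdsWithin] with x hx
      simpa using hx
    exact ht.frequently (hp.mono fun x hx => hf x hx)
  exact congrFun hg0 (y : ℂ)

end dense

end RGX
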