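import Pool.Agent.Lib.MP_069854_nt.RG.RGF

namespace RGX
open MP069854
open Filter Topology Complex Set MeasureTheory Matrix
open scoped ComplexConjugate ContDiff

variable {k : ℕ}

theorem Q_neg (k : ℕ) (x T : ℝ) : Qk k (-x) T = conj (Qk k x T) := by
  rw [Qk_fz, Qk_fz, map_mul, map_inv₀, Complex.conj_ofReal, ← intervalIntegral.intervalIntegral_conj]
  congr 1
  refine intervalIntegral.integral_congr fun t _ => ?_
  simp only [map_mul, Complex.conj_conj]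
  rw [mul_comm]
  congr 2
  · congr 1; ring
  · congr 1; ring

/-- the symmetric set `J ∪ -J` -/
def sy (J : Set ℝ) : Set ℝ := {x | x ∈ J ∨ -x ∈ J}

theorem sy_det {J : Set ℝ} (h : Det k J) : Det k (sy J) := by
  intro y ε hε
  obtain ⟨m, x, c, h1, h2⟩ := h y ε hε
  exact ⟨m, x, c, fun j => Or.inl (h1 j), h2⟩

/-- all large multiples of a small step -/
theorem sy_lat (hk : 1 ≤ k) {J : Set ℝ} {h : ℝ} (h0 : 0 < h) (hh : h * ((k : ℝ) - 2) < Real.pi)
    (hJ : ∀ᶠ n : ℕ in atTop, (n : ℝ) * h ∈ J) : Det k (sy J) := by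
  obtain ⟨N, hN⟩ := eventually_atTop.1 hJ
  refine det_lat hk h0 hh (F := Set.Icc (-(N : ℤ)) N) (Set.finite_Icc _ _) fun n hn => ?_
  rw [Set.mem_Icc, not_and_or, not_le, not_le] at hn
  rcases hn with hn | hn
  · right
    have h1 := hN (-n).toNat (by omega)
    have h2 : (((-n).toNat : ℕ) : ℝ) = -(n : ℝ) := by
      have : (((-n).toNat : ℕ) : ℤ) = -n := Int.toNat_of_nonneg (by omega)
      exact_mod_cast this
    rw [h2] at h1
    rwa [neg_mul] at h1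
  · left
    have h1 := hN n.toNat (by omega)
    have h2 : ((n.toNat : ℕ) : ℝ) = (n : ℝ) := by
      have : ((n.toNat : ℕ) : ℤ) = n := Int.toNat_of_nonneg (by omega)
      exact_mod_cast this
    rwa [h2] at h1

theorem sy_bdd {J : Set ℝ} (h : ∀ x ∈ J, ∃ B : ℝ, ∀ᶠ T : ℝ in atTop, ‖Qk k x T‖ ≤ B) :
    ∀ x ∈ sy J, ∃ B : ℝ, ∀ᶠ T : ℝ in atTop, ‖Qk k x T‖ ≤ B := by
  intro x hx
  rcases hx with hx | hx
  · exact h x hx
  · obtain ⟨B, hB⟩ := h _ hx
    refine ⟨B, hB.mono fun T hT => ?_⟩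
    rwa [Q_neg, Complex.norm_conj] at hT

theorem sy_conv {J : Set ℝ} (h : ∀ x ∈ J, ∃ z : ℂ, Tendsto (fun T => Qk k x T) atTop (𝓝 z)) :
    ∀ x ∈ sy J, ∃ z : ℂ, Tendsto (fun T => Qk k x T) atTop (𝓝 z) := by
  intro x hx
  rcases hx with hx | hx
  · exact h x hx
  · obtain ⟨z, hz⟩ := h _ hx
    refine ⟨conj z, ((Complex.continuous_conj.tendsto _).comp hz).congr fun T => ?_⟩
    simp only [Function.comp]
    rw [Q_neg, Complex.conj_conj]

section
variable [∀ N, MeasurableSpace (unitaryGroup (Fin N) ℂ)] [∀ N, BorelSpace (unitaryGroup (Fin N) ℂ)]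
  (μ : ∀ N, Measure (unitaryGroup (Fin N) ℂ)) [∀ N, IsProbabilityMeasure (μ N)]
  [∀ N, (μ N).IsHaarMeasure]

theorem W_neg {𝒲 : ℝ → ℂ}
    (h𝒲 : ∀ α : ℝ, Tendsto (fun N : ℕ => Wk (μ N) k α) atTop (𝓝 (𝒲 α))) (x : ℝ) :
    𝒲 (-x) = conj (𝒲 x) := by
  refine tendsto_nhds_unique (h𝒲 (-x)) (((Complex.continuous_conj.tendsto _).comp (h𝒲 x)).congr fun N => ?_)
  simp only [Function.comp]
  rw [Wk_w, Wk_w, map_sum]
  refine Finset.sum_congr rfl fun j _ => ?_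
  rw [map_mul, Complex.conj_ofReal, ← Complex.exp_conj]
  congr 2
  rw [map_mul, Complex.conj_I, map_neg, Complex.conj_ofReal]
  push_cast; ring

theorem sy_pred {𝒲 : ℝ → ℂ}
    (h𝒲 : ∀ α : ℝ, Tendsto (fun N : ℕ => Wk (μ N) k α) atTop (𝓝 (𝒲 α))) {J : Set ℝ}
    (h : ∀ x ∈ J, Tendsto (fun T => Qk k x T) atTop (𝓝 (arith k * 𝒲 x))) :
    ∀ x ∈ sy J, Tendsto (fun T => Qk k x T) atTop (𝓝 (arith k * 𝒲 x)) := by
  intro x hx
  rcases hx with hx | hx
  · exact h x hx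
  · have h1 := (Complex.continuous_conj.tendsto _).comp (h _ hx)
    rw [W_neg μ h𝒲 x, map_mul, Complex.conj_ofReal, Complex.conj_conj] at h1
    refine h1.congr fun T => ?_
    simp only [Function.comp]
    rw [Q_neg, Complex.conj_conj]

end
end RGX
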